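import Pool.Agent.Helper93.L3.TypDef

/-!
# LN3-R6 (MP_730da0_ag): all ratios are constant

Paper proof.  `Conf k` is not empty; `q ∘ σ ∈ Conf k`.
(1) For `A ≠ B`, `C ≠ D` the function `(W A - W B) / (W C - W D)` is constant on `Conf k`: if `A ≠ C` it is `[(A - B)/(A - C)] · [(A - C)/(C - D)]`, the first factor is `1` (`B = C`) or `rat A B C`, the second one is `- (C - A)/(C - D)`,
`A = D` or `rat C A D`; if `A = C`: `1` or `rat A B D`.
(2) `τ` a transposition, `A ≠ B`: `(W (τ A) - W (τ B)) = λ (W A - W B)` with a constant `λ`; at `q ∘ τ`: `W A - W B = λ (W (τ A) - W (τ B))` (`τ τ = 1`), so `λ² = 1`.  `λ` does not depend on the pair `A, B`: for a third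
point `C`: `c = rat A B C` is constant and (at `q ∘ τ`) `rat (τ A) (τ B) (τ C) = c`, so `(τA - τB)/(A - B) = (τA - τC)/(A - C)`.
(3) A 3-cycle `σ` is a product of two transpositions (`Equiv.Perm.IsThreeCycle`; `σ = swap a b * swap a c`), so `W (σ A) - W (σ B) = μ (W A - W B)` with a constant `μ`, the same for all pairs, `μ² = 1`; and `σ³ = 1` gives `μ³ = 1`, so `μ = 1`.
(4) Let `A` with `σ A ≠ A`.  `W (σ σ A) - W (σ A) = W (σ A) - W A`, and (apply again) `W (σ³ A) - W (σ² A) = W (σ² A) - W (σ A)`; the sum of `W (σ A) - W A`, `W (σ² A) - W (σ A)`, `W (σ³ A) - W (σ² A)` is `0` and they are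
equal: `W (σ A) = W A`, so `σ A = A` (`sep`).
-/

namespace Pool.Agent.Helper93.L3

open Pool.Agent.Helper2.LN

theorem const_case {k : ℕ} {Ω : Type} [MulAction (Equiv.Perm (Fin k)) Ω] (W : Ω → (Fin k → ℂ) → ℂ)
    (hW : Fam k Ω W)
    (hc : ∀ x y z : Ω, x ≠ y → x ≠ z → y ≠ z → ∃ c : ℂ, ∀ q ∈ Conf k, rat W x y z q = c)
    (σ : Equiv.Perm (Fin k)) (hσ : σ.IsThreeCycle) (x : Ω) : σ • x = x := by
  by_contra hne
  -- a configuration
  have hq0 : (fun i : Fin k => ((i.val : ℕ) : ℂ)) ∈ Conf k := by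
    intro a b hab
    simp only [Nat.cast_inj] at hab
    exact Fin.ext hab
  obtain ⟨q0, hq0⟩ : ∃ q0, q0 ∈ Conf k := ⟨_, hq0⟩
  have hcomp : ∀ q ∈ Conf k, ∀ τ : Equiv.Perm (Fin k), q ∘ τ ∈ Conf k := by
    intro q hq τ a b hab
    exact τ.injective (hq hab)
  have hyx : x ≠ σ • x := fun h => hne h.symm
  have hφ : ∀ q ∈ Conf k, W x q - W (σ • x) q ≠ 0 := fun q hq =>
    sub_ne_zero.2 (hW.sep _ _ hyx q hq)
  -- ratios with a common point
  have L1 : ∀ A B C : Ω, A ≠ C → ∃ r : ℂ, ∀ q ∈ Conf k, W A q - W B q = r * (W A q - W C q) := by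
    intro A B C hAC
    by_cases hAB : A = B
    · exact ⟨0, fun q _ => by rw [hAB, sub_self, zero_mul]⟩
    by_cases hBC : B = C
    · exact ⟨1, fun q _ => by rw [hBC, one_mul]⟩
    obtain ⟨c, hc'⟩ := hc A B C hAB hAC hBC
    refine ⟨c, fun q hq => ?_⟩
    have h1 := hc' q hq
    have h2 : W A q - W C q ≠ 0 := sub_ne_zero.2 (hW.sep _ _ hAC q hq)
    unfold rat at h1
    rw [← h1, div_mul_cancel₀ _ h2]
  have L2 : ∀ A B : Ω, ∃ c : ℂ, ∀ q ∈ Conf k, W A q - W B q = c * (W x q - W (σ • x) q) := by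
    intro A B
    by_cases hA : A = x
    · rw [hA]
      exact L1 x B (σ • x) hyx
    · obtain ⟨r1, h1⟩ := L1 A B x hA
      obtain ⟨r2, h2⟩ := L1 x A (σ • x) hyx
      refine ⟨-(r1 * r2), fun q hq => ?_⟩
      have e1 := h1 q hq
      have e2 := h2 q hq
      linear_combination e1 - r1 * e2
  choose c hc' using L2
  have hχ : ∀ (τ : Equiv.Perm (Fin k)), ∀ q ∈ Conf k, W x (q ∘ τ) - W (σ • x) (q ∘ τ) =
      c (τ • x) (τ • (σ • x)) * (W x q - W (σ • x) q) := by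
    intro τ q hq
    rw [← hW.eqv τ x q hq, ← hW.eqv τ (σ • x) q hq]
    exact hc' _ _ q hq
  set χ : Equiv.Perm (Fin k) → ℂ := fun τ => c (τ • x) (τ • (σ • x)) with hχd
  have hmul : ∀ τ τ' : Equiv.Perm (Fin k), χ (τ * τ') = χ τ * χ τ' := by
    intro τ τ'
    have h1 := hχ (τ * τ') q0 hq0
    have h2 := hχ τ' (q0 ∘ τ) (hcomp q0 hq0 τ)
    have h3 := hχ τ q0 hq0
    have h4 : q0 ∘ ⇑(τ * τ') = (q0 ∘ τ) ∘ τ' := rfl
    rw [h4, h2, h3] at h1
    have h5 := hφ q0 hq0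
    have h6 : χ τ' * (χ τ * (W x q0 - W (σ • x) q0)) = χ (τ * τ') * (W x q0 - W (σ • x) q0) := h1
    have h7 : (χ τ * χ τ') * (W x q0 - W (σ • x) q0) = χ (τ * τ') * (W x q0 - W (σ • x) q0) := by
      rw [← h6]
      ring
    exact (mul_right_cancel₀ h5 h7).symm
  have hone : χ 1 = 1 := by
    have h1 := hχ 1 q0 hq0
    have h4 : q0 ∘ ⇑(1 : Equiv.Perm (Fin k)) = q0 := rfl
    rw [h4] at h1
    have h5 := hφ q0 hq0
    have h6 : (1 : ℂ) * (W x q0 - W (σ • x) q0) = χ 1 * (W x q0 - W (σ • x) q0) := by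
      rw [one_mul]
      exact h1
    exact (mul_right_cancel₀ h5 h6).symm
  have h3 : σ ^ 3 = 1 := by
    rw [← hσ.orderOf]
    exact pow_orderOf_eq_one σ
  have hinv : χ σ * χ σ⁻¹ = 1 := by
    rw [← hmul, mul_inv_cancel, hone]
  have hconj : χ σ⁻¹ = χ σ := by
    have h1 : IsConj σ σ⁻¹ := by
      rw [Equiv.Perm.isConj_iff_cycleType_eq, Equiv.Perm.cycleType_inv]
    obtain ⟨g, hg⟩ := isConj_iff.1 h1
    have h2 : χ g * χ g⁻¹ = 1 := by rw [← hmul, mul_inv_cancel, hone]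
    rw [← hg, hmul, hmul]
    calc χ g * χ σ * χ g⁻¹ = (χ g * χ g⁻¹) * χ σ := by ring
      _ = χ σ := by rw [h2, one_mul]
  have hcube : χ σ * χ σ * χ σ = 1 := by
    rw [← hmul, ← hmul, ← pow_three', h3, hone]
  have hσ1 : χ σ = 1 := by
    rw [hconj] at hinv
    rw [hinv, one_mul] at hcube
    exact hcube
  -- translation
  have htr : ∀ A B : Ω, W (σ • A) q0 - W (σ • B) q0 = W A q0 - W B q0 := by
    intro A B
    rw [hW.eqv σ A q0 hq0, hW.eqv σ B q0 hq0, hc' A B (q0 ∘ σ) (hcomp q0 hq0 σ), hχ σ q0 hq0,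
      hc' A B q0 hq0]
    have h7 : c (σ • x) (σ • (σ • x)) = 1 := hσ1
    rw [h7, one_mul]
  have e1 := htr x (σ • x)
  have e2 := htr (σ • x) (σ • (σ • x))
  have h8 : σ • (σ • (σ • x)) = x := by
    rw [smul_smul, smul_smul, ← pow_three', h3, one_smul]
  rw [h8] at e2
  refine hφ q0 hq0 ?_
  linear_combination (-2 / 3 : ℂ) * e1 - (1 / 3 : ℂ) * e2

end Pool.Agent.Helper93.L3
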