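import Pool.Agent.Helper93.L3.Value

/-!
# LN3-R4 (MP_730da0_ag): the transposition lemma

Paper proof.  `v` is `sr` or `cr` of some indices.  Cases (`s ≠ t` the transposition, `v' = v ∘ (s t)`):
* neither `s` nor `t` is one of the indices of `v`: `v' = v`; take `q` with `v q = 2` (`typ_value`).
* both are: then for all `q ∈ Conf k`: `v' = v / (v - 1)` (the sum is always `1`), or `v' = 1 / v`, or `v' = 1 - v`; in the last two cases the sum is `1` iff `v² - v + 1 = 0`; take `q` with `v q = w`, `w² - w + 1 = 0`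
  (`typ_value`; e.g. `w = (1 + √3 i)/2`).  [`sr a b c`: `(a b)`: `v/(v-1)`; `(a c)`: `1 - v`; `(b c)`: `1/v`.  `cr a b c d`: `(a b)`, `(c d)`: `v/(v-1)`; `(a c)`, `(b d)`: `1 - v`; `(a d)`, `(b c)`: `1/v`.]
* exactly one is, say `s` (otherwise exchange `s` and `t`: `Equiv.swap_comm`): take `q` with `v q = 3`, `v' q = 3/2` (`exists_conf_on`).  `sr a b c`, `s = a`: `q b = 0`, `q c = 1`, `q a = 3/2`, `q t = 3`.
  `s = b`: `q a = 0`, `q c = 1`, `q b = 3`, `q t = 3/2`.  `s = c`: `q a = 0`, `q b = 1`, `q c = 1/3`, `q t = 2/3`.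
  `cr a b c d`, `s = a`: `q b = 0`, `q c = 1`, `q d = -1`: `v = 2 x/(x - 1)`, `q a = 3`, `q t = -3`.  `s ∈ {b, c, d}`: `cr a b c d = cr b a d c = cr c d a b = cr d c b a` on `Conf k`, so this is the case `s = a`.
-/

namespace Pool.Agent.Helper93.L3

open Pool.Agent.Helper2.LN

private theorem exists_pts {k n : ℕ} (f : Fin n → Fin k) (x : Fin n → ℂ)
    (hf : Function.Injective f) (hx : Function.Injective x) :
    ∃ q ∈ Conf k, ∀ j, q (f j) = x j := by
  classical
  obtain ⟨q, hq, hq2⟩ := exists_conf_on (Finset.univ.image f) (Function.extend f x 0) (by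
    intro i hi j hj hij
    rw [Finset.mem_coe, Finset.mem_image] at hi hj
    obtain ⟨i', -, rfl⟩ := hi
    obtain ⟨j', -, rfl⟩ := hj
    rw [hf.extend_apply, hf.extend_apply] at hij
    rw [hx hij])
  refine ⟨q, hq, fun j => ?_⟩
  rw [hq2 _ (Finset.mem_image_of_mem _ (Finset.mem_univ j)), hf.extend_apply]

private theorem pts3 {k : ℕ} {a b c : Fin k} (h1 : a ≠ b) (h2 : a ≠ c) (h3 : b ≠ c) (x y z : ℂ)
    (g1 : x ≠ y) (g2 : x ≠ z) (g3 : y ≠ z) :
    ∃ q ∈ Conf k, q a = x ∧ q b = y ∧ q c = z := by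
  obtain ⟨q, hq, h⟩ := exists_pts ![a, b, c] ![x, y, z]
    (by intro i j h; fin_cases i <;> fin_cases j <;> simp_all [eq_comm])
    (by intro i j h; fin_cases i <;> fin_cases j <;> simp_all [eq_comm])
  exact ⟨q, hq, h 0, h 1, h 2⟩

private theorem pts4 {k : ℕ} {a b c d : Fin k} (h1 : a ≠ b) (h2 : a ≠ c) (h3 : a ≠ d)
    (h4 : b ≠ c) (h5 : b ≠ d) (h6 : c ≠ d) (x y z w : ℂ)
    (g1 : x ≠ y) (g2 : x ≠ z) (g3 : x ≠ w) (g4 : y ≠ z) (g5 : y ≠ w) (g6 : z ≠ w) :
    ∃ q ∈ Conf k, q a = x ∧ q b = y ∧ q c = z ∧ q d = w := by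
  obtain ⟨q, hq, h⟩ := exists_pts ![a, b, c, d] ![x, y, z, w]
    (by intro i j h; fin_cases i <;> fin_cases j <;> simp_all [eq_comm])
    (by intro i j h; fin_cases i <;> fin_cases j <;> simp_all [eq_comm])
  exact ⟨q, hq, h 0, h 1, h 2, h 3⟩

private theorem pts5 {k : ℕ} {a b c d e : Fin k} (h1 : a ≠ b) (h2 : a ≠ c) (h3 : a ≠ d)
    (h4 : b ≠ c) (h5 : b ≠ d) (h6 : c ≠ d) (h7 : e ≠ a) (h8 : e ≠ b) (h9 : e ≠ c) (h10 : e ≠ d)
    (x y z w u : ℂ)
    (g1 : x ≠ y) (g2 : x ≠ z) (g3 : x ≠ w) (g4 : y ≠ z) (g5 : y ≠ w) (g6 : z ≠ w)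
    (g7 : u ≠ x) (g8 : u ≠ y) (g9 : u ≠ z) (g10 : u ≠ w) :
    ∃ q ∈ Conf k, q a = x ∧ q b = y ∧ q c = z ∧ q d = w ∧ q e = u := by
  obtain ⟨q, hq, h⟩ := exists_pts ![a, b, c, d, e] ![x, y, z, w, u]
    (by intro i j h; fin_cases i <;> fin_cases j <;> simp_all [eq_comm])
    (by intro i j h; fin_cases i <;> fin_cases j <;> simp_all [eq_comm])
  exact ⟨q, hq, h 0, h 1, h 2, h 3, h 4⟩

private theorem sum_ab {A B C : ℂ} (hA : A ≠ 0) (hB : B ≠ 0) (hC : C ≠ 0) (h : B = A + C) :
    (A / B)⁻¹ + (-A / C)⁻¹ = 1 := by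
  rw [inv_div, inv_div, div_neg, ← sub_eq_add_neg, ← sub_div, h, add_sub_cancel_right, div_self hA]

private theorem sum_ac {A B C : ℂ} (hA : A ≠ 0) (hB : B ≠ 0) (hC : C ≠ 0) (h : B = A + C)
    (h2 : A ^ 2 + A * C + C ^ 2 = 0) : (A / B)⁻¹ + (C / B)⁻¹ = 1 := by
  rw [inv_div, inv_div, div_add_div _ _ hA hC, div_eq_one_iff_eq (mul_ne_zero hA hC), h]
  linear_combination h2

private theorem sum_bc {A B C : ℂ} (hA : A ≠ 0) (hB : B ≠ 0) (h : B = A + C)
    (h2 : A ^ 2 + A * C + C ^ 2 = 0) : (A / B)⁻¹ + (B / A)⁻¹ = 1 := by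
  rw [inv_div, inv_div, div_add_div _ _ hA hB, div_eq_one_iff_eq (mul_ne_zero hA hB), h]
  linear_combination h2

private theorem exists_w : ∃ w : ℂ, w ^ 2 - w + 1 = 0 := by
  obtain ⟨r, hr⟩ := IsAlgClosed.exists_pow_nat_eq (-3 : ℂ) (n := 2) (by norm_num)
  refine ⟨(1 + r) / 2, ?_⟩
  linear_combination hr / 4

/-- The case of a simple ratio. -/
private theorem swap_sr {k : ℕ} {a b c : Fin k} (hab : a ≠ b) (hac : a ≠ c) (hbc : b ≠ c)
    (s t : Fin k) (hst : s ≠ t) (hs : t = a ∨ t = b ∨ t = c → s = a ∨ s = b ∨ s = c) :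
    ∃ q ∈ Conf k, (sr a b c q)⁻¹ + (sr a b c (q ∘ Equiv.swap s t))⁻¹ = 1 := by
  obtain ⟨w, hw⟩ := exists_w
  have hw0 : w ≠ 0 := by
    rintro rfl
    norm_num at hw
  have hw1 : w ≠ 1 := by
    rintro rfl
    norm_num at hw
  by_cases ht : t = a ∨ t = b ∨ t = c
  · -- both are indices
    obtain ⟨q, hq, ha, hb, hc⟩ := pts3 hab hac hbc w 0 1 hw0 hw1 (by norm_num)
    have nA : q a - q b ≠ 0 := sub_ne_zero.2 fun h => hab (hq h)
    have nB : q a - q c ≠ 0 := sub_ne_zero.2 fun h => hac (hq h)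
    have nC : q b - q c ≠ 0 := sub_ne_zero.2 fun h => hbc (hq h)
    have hB : q a - q c = (q a - q b) + (q b - q c) := by ring
    have h2 : (q a - q b) ^ 2 + (q a - q b) * (q b - q c) + (q b - q c) ^ 2 = 0 := by
      rw [ha, hb, hc]
      linear_combination hw
    have e1 : (q b - q a) / (q b - q c) = -(q a - q b) / (q b - q c) := by rw [neg_sub]
    have e2 : (q c - q b) / (q c - q a) = (q b - q c) / (q a - q c) := by
      rw [← neg_sub (q b) (q c), ← neg_sub (q a) (q c), neg_div_neg_eq]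
    have k1 := sum_ab nA nB nC hB
    have k2 := sum_ac nA nB nC hB h2
    have k3 := sum_bc nA nB hB h2
    rw [← e1] at k1
    rw [← e2] at k2
    refine ⟨q, hq, ?_⟩
    unfold sr
    simp only [Function.comp_apply]
    rcases hs ht with rfl | rfl | rfl <;> rcases ht with rfl | rfl | rfl
    · exact absurd rfl hst
    · rw [Equiv.swap_apply_left, Equiv.swap_apply_right, Equiv.swap_apply_of_ne_of_ne hac.symm hbc.symm]
      exact k1
    · rw [Equiv.swap_apply_left, Equiv.swap_apply_right, Equiv.swap_apply_of_ne_of_ne hab.symm hbc]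
      exact k2
    · rw [Equiv.swap_apply_left, Equiv.swap_apply_right, Equiv.swap_apply_of_ne_of_ne hbc.symm hac.symm]
      exact k1
    · exact absurd rfl hst
    · rw [Equiv.swap_apply_left, Equiv.swap_apply_right, Equiv.swap_apply_of_ne_of_ne hab hac]
      exact k3
    · rw [Equiv.swap_apply_left, Equiv.swap_apply_right, Equiv.swap_apply_of_ne_of_ne hbc hab.symm]
      exact k2
    · rw [Equiv.swap_apply_left, Equiv.swap_apply_right, Equiv.swap_apply_of_ne_of_ne hac hab]
      exact k3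
    · exact absurd rfl hst
  · push Not at ht
    obtain ⟨hta, htb, htc⟩ := ht
    by_cases hsa : s = a
    · subst hsa
      obtain ⟨q, hq, ha, hb, hc, ht⟩ := pts4 hab hac hta.symm hbc htb.symm htc.symm (3 / 2) 0 1 3
        (by norm_num) (by norm_num) (by norm_num) (by norm_num) (by norm_num) (by norm_num)
      refine ⟨q, hq, ?_⟩
      unfold sr
      simp only [Function.comp_apply]
      rw [Equiv.swap_apply_left, Equiv.swap_apply_of_ne_of_ne hab.symm htb.symm,
        Equiv.swap_apply_of_ne_of_ne hac.symm htc.symm, ha, hb, hc, ht]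
      norm_num
    by_cases hsb : s = b
    · subst hsb
      obtain ⟨q, hq, ha, hb, hc, ht⟩ := pts4 hab hac hta.symm hbc htb.symm htc.symm 0 3 1 (3 / 2)
        (by norm_num) (by norm_num) (by norm_num) (by norm_num) (by norm_num) (by norm_num)
      refine ⟨q, hq, ?_⟩
      unfold sr
      simp only [Function.comp_apply]
      rw [Equiv.swap_apply_left, Equiv.swap_apply_of_ne_of_ne hab hta.symm,
        Equiv.swap_apply_of_ne_of_ne hbc.symm htc.symm, ha, hb, hc, ht]
      norm_num
    by_cases hsc : s = c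
    · subst hsc
      obtain ⟨q, hq, ha, hb, hc, ht⟩ := pts4 hab hac hta.symm hbc htb.symm htc.symm 0 1 (1 / 3) (2 / 3)
        (by norm_num) (by norm_num) (by norm_num) (by norm_num) (by norm_num) (by norm_num)
      refine ⟨q, hq, ?_⟩
      unfold sr
      simp only [Function.comp_apply]
      rw [Equiv.swap_apply_left, Equiv.swap_apply_of_ne_of_ne hac hta.symm,
        Equiv.swap_apply_of_ne_of_ne hbc htb.symm, ha, hb, hc, ht]
      norm_num
    obtain ⟨q, hq, ha, hb, hc⟩ := pts3 hab hac hbc 0 2 1 (by norm_num) (by norm_num) (by norm_num)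
    refine ⟨q, hq, ?_⟩
    unfold sr
    simp only [Function.comp_apply]
    rw [Equiv.swap_apply_of_ne_of_ne (Ne.symm hsa) hta.symm,
      Equiv.swap_apply_of_ne_of_ne (Ne.symm hsb) htb.symm,
      Equiv.swap_apply_of_ne_of_ne (Ne.symm hsc) htc.symm, ha, hb, hc]
    norm_num

/-- The case of a cross ratio. -/
private theorem swap_cr {k : ℕ} {a b c d : Fin k} (hab : a ≠ b) (hac : a ≠ c) (had : a ≠ d)
    (hbc : b ≠ c) (hbd : b ≠ d) (hcd : c ≠ d) (s t : Fin k) (hst : s ≠ t)
    (hs : t = a ∨ t = b ∨ t = c ∨ t = d → s = a ∨ s = b ∨ s = c ∨ s = d) :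
    ∃ q ∈ Conf k, (cr a b c d q)⁻¹ + (cr a b c d (q ∘ Equiv.swap s t))⁻¹ = 1 := by
  obtain ⟨w, hw⟩ := exists_w
  by_cases ht : t = a ∨ t = b ∨ t = c ∨ t = d
  · -- both are indices
    obtain ⟨q, hq, ha, hb, hc, hd⟩ := pts4 hab hac had hbc hbd hcd 0 1 (-w) (w - 1) (by norm_num)
      (by intro h
          have h1 : w = 0 := by linear_combination h
          rw [h1] at hw
          norm_num at hw)
      (by intro h
          have h1 : w = 1 := by linear_combination -h
          rw [h1] at hw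
          norm_num at hw)
      (by intro h
          have h1 : w = -1 := by linear_combination h
          rw [h1] at hw
          norm_num at hw)
      (by intro h
          have h1 : w = 2 := by linear_combination -h
          rw [h1] at hw
          norm_num at hw)
      (by intro h
          have h1 : w = 1 / 2 := by linear_combination -h / 2
          rw [h1] at hw
          norm_num at hw)
    have nab : q a - q b ≠ 0 := sub_ne_zero.2 fun h => hab (hq h)
    have nac : q a - q c ≠ 0 := sub_ne_zero.2 fun h => hac (hq h)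
    have nad : q a - q d ≠ 0 := sub_ne_zero.2 fun h => had (hq h)
    have nbc : q b - q c ≠ 0 := sub_ne_zero.2 fun h => hbc (hq h)
    have nbd : q b - q d ≠ 0 := sub_ne_zero.2 fun h => hbd (hq h)
    have ncd : q c - q d ≠ 0 := sub_ne_zero.2 fun h => hcd (hq h)
    have nA := mul_ne_zero nab ncd
    have nB := mul_ne_zero nac nbd
    have nC := mul_ne_zero nad nbc
    have hB : (q a - q c) * (q b - q d) = (q a - q b) * (q c - q d) + (q a - q d) * (q b - q c) := by
      ring
    have h2 : ((q a - q b) * (q c - q d)) ^ 2 +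
        ((q a - q b) * (q c - q d)) * ((q a - q d) * (q b - q c)) +
        ((q a - q d) * (q b - q c)) ^ 2 = 0 := by
      rw [ha, hb, hc, hd]
      linear_combination (w ^ 2 - w + 1) * hw
    have k1 := sum_ab nA nB nC hB
    have k2 := sum_ac nA nB nC hB h2
    have k3 := sum_bc nA nB hB h2
    have f1 : -((q a - q b) * (q c - q d)) / ((q a - q d) * (q b - q c)) =
        ((q b - q a) * (q c - q d)) / ((q b - q c) * (q a - q d)) := by
      congr 1 <;> ring
    have f1' : -((q a - q b) * (q c - q d)) / ((q a - q d) * (q b - q c)) =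
        ((q a - q b) * (q d - q c)) / ((q a - q d) * (q b - q c)) := by
      congr 1; ring
    have f2 : ((q a - q d) * (q b - q c)) / ((q a - q c) * (q b - q d)) =
        ((q c - q b) * (q a - q d)) / ((q c - q a) * (q b - q d)) := by
      rw [← neg_div_neg_eq]
      congr 1 <;> ring
    have f2' : ((q a - q d) * (q b - q c)) / ((q a - q c) * (q b - q d)) =
        ((q a - q d) * (q c - q b)) / ((q a - q c) * (q d - q b)) := by
      rw [← neg_div_neg_eq]
      congr 1 <;> ring
    have f3 : ((q a - q c) * (q b - q d)) / ((q a - q b) * (q c - q d)) =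
        ((q d - q b) * (q c - q a)) / ((q d - q c) * (q b - q a)) := by
      congr 1 <;> ring
    have m1 := k1
    have m2 := k2
    have m3 := k3
    rw [f1] at k1
    rw [f1'] at m1
    rw [f2] at k2
    rw [f2'] at m2
    rw [f3] at m3
    refine ⟨q, hq, ?_⟩
    unfold cr
    simp only [Function.comp_apply]
    rcases hs ht with rfl | rfl | rfl | rfl <;> rcases ht with rfl | rfl | rfl | rfl <;>
      first
      | exact absurd rfl hst
      | simp only [Equiv.swap_apply_left, Equiv.swap_apply_right,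
          Equiv.swap_apply_of_ne_of_ne hab hac, Equiv.swap_apply_of_ne_of_ne hac hab,
          Equiv.swap_apply_of_ne_of_ne hab had, Equiv.swap_apply_of_ne_of_ne had hab,
          Equiv.swap_apply_of_ne_of_ne hac had, Equiv.swap_apply_of_ne_of_ne had hac,
          Equiv.swap_apply_of_ne_of_ne hab.symm hbc, Equiv.swap_apply_of_ne_of_ne hbc hab.symm,
          Equiv.swap_apply_of_ne_of_ne hab.symm hbd, Equiv.swap_apply_of_ne_of_ne hbd hab.symm,
          Equiv.swap_apply_of_ne_of_ne hbc hbd, Equiv.swap_apply_of_ne_of_ne hbd hbc,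
          Equiv.swap_apply_of_ne_of_ne hac.symm hbc.symm,
          Equiv.swap_apply_of_ne_of_ne hbc.symm hac.symm,
          Equiv.swap_apply_of_ne_of_ne hac.symm hcd, Equiv.swap_apply_of_ne_of_ne hcd hac.symm,
          Equiv.swap_apply_of_ne_of_ne hbc.symm hcd, Equiv.swap_apply_of_ne_of_ne hcd hbc.symm,
          Equiv.swap_apply_of_ne_of_ne had.symm hbd.symm,
          Equiv.swap_apply_of_ne_of_ne hbd.symm had.symm,
          Equiv.swap_apply_of_ne_of_ne had.symm hcd.symm,
          Equiv.swap_apply_of_ne_of_ne hcd.symm had.symm,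
          Equiv.swap_apply_of_ne_of_ne hbd.symm hcd.symm,
          Equiv.swap_apply_of_ne_of_ne hcd.symm hbd.symm]
        first
        | exact k1
        | exact m1
        | exact k2
        | exact m2
        | exact k3
        | exact m3
  · push Not at ht
    obtain ⟨hta, htb, htc, htd⟩ := ht
    by_cases hsa : s = a
    · subst hsa
      obtain ⟨q, hq, ha, hb, hc, hd, ht⟩ := pts5 hab hac had hbc hbd hcd hta htb htc htd
        3 0 1 (-1) (-3) (by norm_num) (by norm_num) (by norm_num) (by norm_num) (by norm_num)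
        (by norm_num) (by norm_num) (by norm_num) (by norm_num) (by norm_num)
      refine ⟨q, hq, ?_⟩
      unfold cr
      simp only [Function.comp_apply]
      rw [Equiv.swap_apply_left, Equiv.swap_apply_of_ne_of_ne hab.symm htb.symm,
        Equiv.swap_apply_of_ne_of_ne hac.symm htc.symm,
        Equiv.swap_apply_of_ne_of_ne had.symm htd.symm, ha, hb, hc, hd, ht]
      norm_num
    by_cases hsb : s = b
    · subst hsb
      obtain ⟨q, hq, ha, hb, hc, hd, ht⟩ := pts5 hab hac had hbc hbd hcd hta htb htc htd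
        0 3 (-1) 1 (-3) (by norm_num) (by norm_num) (by norm_num) (by norm_num) (by norm_num)
        (by norm_num) (by norm_num) (by norm_num) (by norm_num) (by norm_num)
      refine ⟨q, hq, ?_⟩
      unfold cr
      simp only [Function.comp_apply]
      rw [Equiv.swap_apply_left, Equiv.swap_apply_of_ne_of_ne hab hta.symm,
        Equiv.swap_apply_of_ne_of_ne hbc.symm htc.symm,
        Equiv.swap_apply_of_ne_of_ne hbd.symm htd.symm, ha, hb, hc, hd, ht]
      norm_num
    by_cases hsc : s = c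
    · subst hsc
      obtain ⟨q, hq, ha, hb, hc, hd, ht⟩ := pts5 hab hac had hbc hbd hcd hta htb htc htd
        1 (-1) 3 0 (-3) (by norm_num) (by norm_num) (by norm_num) (by norm_num) (by norm_num)
        (by norm_num) (by norm_num) (by norm_num) (by norm_num) (by norm_num)
      refine ⟨q, hq, ?_⟩
      unfold cr
      simp only [Function.comp_apply]
      rw [Equiv.swap_apply_left, Equiv.swap_apply_of_ne_of_ne hac hta.symm,
        Equiv.swap_apply_of_ne_of_ne hbc htb.symm,
        Equiv.swap_apply_of_ne_of_ne hcd.symm htd.symm, ha, hb, hc, hd, ht]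
      norm_num
    by_cases hsd : s = d
    · subst hsd
      obtain ⟨q, hq, ha, hb, hc, hd, ht⟩ := pts5 hab hac had hbc hbd hcd hta htb htc htd
        (-1) 1 0 3 (-3) (by norm_num) (by norm_num) (by norm_num) (by norm_num) (by norm_num)
        (by norm_num) (by norm_num) (by norm_num) (by norm_num) (by norm_num)
      refine ⟨q, hq, ?_⟩
      unfold cr
      simp only [Function.comp_apply]
      rw [Equiv.swap_apply_left, Equiv.swap_apply_of_ne_of_ne had hta.symm,
        Equiv.swap_apply_of_ne_of_ne hbd htb.symm,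
        Equiv.swap_apply_of_ne_of_ne hcd htc.symm, ha, hb, hc, hd, ht]
      norm_num
    obtain ⟨q, hq, ha, hb, hc, hd⟩ := pts4 hab hac had hbc hbd hcd 0 (4 / 3) 1 2 (by norm_num)
      (by norm_num) (by norm_num) (by norm_num) (by norm_num) (by norm_num)
    refine ⟨q, hq, ?_⟩
    unfold cr
    simp only [Function.comp_apply]
    rw [Equiv.swap_apply_of_ne_of_ne (Ne.symm hsa) hta.symm,
      Equiv.swap_apply_of_ne_of_ne (Ne.symm hsb) htb.symm,
      Equiv.swap_apply_of_ne_of_ne (Ne.symm hsc) htc.symm,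
      Equiv.swap_apply_of_ne_of_ne (Ne.symm hsd) htd.symm, ha, hb, hc, hd]
    norm_num

theorem typ_swap {k : ℕ} (v : (Fin k → ℂ) → ℂ) (hv : Typ v) (s t : Fin k) (hst : s ≠ t) :
    ∃ q ∈ Conf k, (v q)⁻¹ + (v (q ∘ Equiv.swap s t))⁻¹ = 1 := by
  have hc : ∀ (q : Fin k → ℂ) (σ : Equiv.Perm (Fin k)), q ∈ Conf k → q ∘ σ ∈ Conf k :=
    fun q σ hq => Function.Injective.comp hq σ.injective
  rcases hv with ⟨a, b, c, hab, hac, hbc, h⟩ | ⟨a, b, c, d, hab, hac, had, hbc, hbd, hcd, h⟩
  · by_cases hs : t = a ∨ t = b ∨ t = c → s = a ∨ s = b ∨ s = c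
    · obtain ⟨q, hq, he⟩ := swap_sr hab hac hbc s t hst hs
      exact ⟨q, hq, by rw [h q hq, h _ (hc q _ hq)]; exact he⟩
    · obtain ⟨q, hq, he⟩ := swap_sr hab hac hbc t s hst.symm fun hs' =>
        (hs fun _ => hs').elim
      rw [Equiv.swap_comm] at he
      exact ⟨q, hq, by rw [h q hq, h _ (hc q _ hq)]; exact he⟩
  · by_cases hs : t = a ∨ t = b ∨ t = c ∨ t = d → s = a ∨ s = b ∨ s = c ∨ s = d
    · obtain ⟨q, hq, he⟩ := swap_cr hab hac had hbc hbd hcd s t hst hs
      exact ⟨q, hq, by rw [h q hq, h _ (hc q _ hq)]; exact he⟩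
    · obtain ⟨q, hq, he⟩ := swap_cr hab hac had hbc hbd hcd t s hst.symm fun hs' =>
        (hs fun _ => hs').elim
      rw [Equiv.swap_comm] at he
      exact ⟨q, hq, by rw [h q hq, h _ (hc q _ hq)]; exact he⟩

end Pool.Agent.Helper93.L3
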