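import Pool.Agent.Helper93.L3.TypOf
import Pool.Agent.Helper93.L3.Phi

/-!
# LN3-R7 (MP_730da0_ag): one ratio is not constant

Paper proof.  `rat W x y z` is holomorphic and omits `0`, `1` (`sep`; `1 - rat x y z = rat z y x`).
`all_typ`: `rat x y z` not constant implies `rat x y t` not constant for `t ≠ x, y, z`: otherwise `rat x y t = c`, `c ≠ 0, 1`, and `rat x y z = c (W x - W t)/(W x - W z) ≠ c` everywhere [`rat x t z ≠ 1`], but `rat x y z` is `Typ` and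
takes the value `c` (`typ_value`).  The property depends only on the set `{x, y, z}` (`rat x z y = 1/rat x y z`, `rat z y x = 1 - rat x y z`).  Replace the points one by one.
`swap_fix`: `τ = swap a b`, `J = τ I ≠ I`, `K ≠ I, J`.  `v = rat I J K` is `Typ`; at `q ∘ τ`: `v (q ∘ τ) = (W J - W I)/(W J - W (τ K))` at `q`.  With `B = W I - W J`: `W K = W I - B/v`, `W (τ K) = W J + B/v'`, so
`W K - W (τ K) = B (1 - 1/v - 1/v')`, which is `0` for some `q` (`typ_swap`), so `τ K = K` (`sep`).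
-/

namespace Pool.Agent.Helper93.L3

open Pool.Agent.Helper2.LN

private theorem conf_nonempty (k : ℕ) : ∃ q, q ∈ Conf k :=
  ⟨fun i => ((i.val : ℕ) : ℂ), fun a b hab => by
    simp only [Nat.cast_inj] at hab
    exact Fin.ext hab⟩

private theorem rat_ne_zero {k : ℕ} {Ω : Type} [MulAction (Equiv.Perm (Fin k)) Ω]
    {W : Ω → (Fin k → ℂ) → ℂ} (hW : Fam k Ω W) {x y z : Ω} (h1 : x ≠ y) (h2 : x ≠ z)
    {q : Fin k → ℂ} (hq : q ∈ Conf k) : rat W x y z q ≠ 0 :=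
  div_ne_zero (sub_ne_zero.2 (hW.sep _ _ h1 q hq)) (sub_ne_zero.2 (hW.sep _ _ h2 q hq))

private theorem rat_ne_one {k : ℕ} {Ω : Type} [MulAction (Equiv.Perm (Fin k)) Ω]
    {W : Ω → (Fin k → ℂ) → ℂ} (hW : Fam k Ω W) {x y z : Ω} (h2 : x ≠ z) (h3 : y ≠ z)
    {q : Fin k → ℂ} (hq : q ∈ Conf k) : rat W x y z q ≠ 1 := by
  unfold rat
  rw [Ne, div_eq_one_iff_eq (sub_ne_zero.2 (hW.sep _ _ h2 q hq))]
  intro h
  exact hW.sep _ _ h3 q hq (sub_right_injective h)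

private theorem rat_unit {k : ℕ} {Ω : Type} [MulAction (Equiv.Perm (Fin k)) Ω]
    {W : Ω → (Fin k → ℂ) → ℂ} (hW : Fam k Ω W) {x y z : Ω} (h1 : x ≠ y) (h2 : x ≠ z)
    (h3 : y ≠ z) : (∃ c, ∀ q ∈ Conf k, rat W x y z q = c) ∨ Typ (rat W x y z) := by
  refine typ_of_unit _ ?_ (fun q hq => rat_ne_zero hW h1 h2 hq) fun q hq => rat_ne_one hW h2 h3 hq
  have h4 : DifferentiableOn ℂ (fun q => (W x q - W z q)⁻¹) (Conf k) :=
    DifferentiableOn.fun_inv ((hW.dif x).sub (hW.dif z))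
      fun q hq => sub_ne_zero.2 (hW.sep _ _ h2 q hq)
  have h5 : DifferentiableOn ℂ (fun q => (W x q - W y q) * (W x q - W z q)⁻¹) (Conf k) :=
    ((hW.dif x).sub (hW.dif y)).mul h4
  exact h5

private theorem const_a {k : ℕ} {Ω : Type} {W : Ω → (Fin k → ℂ) → ℂ} {x y z : Ω}
    (h : ∃ c : ℂ, ∀ q ∈ Conf k, rat W x z y q = c) : ∃ c : ℂ, ∀ q ∈ Conf k, rat W x y z q = c := by
  obtain ⟨c, hc⟩ := h
  refine ⟨c⁻¹, fun q hq => ?_⟩
  rw [← hc q hq]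
  unfold rat
  rw [inv_div]

private theorem const_b {k : ℕ} {Ω : Type} [MulAction (Equiv.Perm (Fin k)) Ω]
    {W : Ω → (Fin k → ℂ) → ℂ} (hW : Fam k Ω W) {x y z : Ω} (h2 : x ≠ z)
    (h : ∃ c : ℂ, ∀ q ∈ Conf k, rat W z y x q = c) : ∃ c : ℂ, ∀ q ∈ Conf k, rat W x y z q = c := by
  obtain ⟨c, hc⟩ := h
  refine ⟨1 - c, fun q hq => ?_⟩
  rw [← hc q hq]
  unfold rat
  have h4 : W x q - W z q ≠ 0 := sub_ne_zero.2 (hW.sep _ _ h2 q hq)
  have h5 : W z q - W x q ≠ 0 := sub_ne_zero.2 (hW.sep _ _ h2.symm q hq)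
  field_simp
  ring

private theorem const_c {k : ℕ} {Ω : Type} [MulAction (Equiv.Perm (Fin k)) Ω]
    {W : Ω → (Fin k → ℂ) → ℂ} (hW : Fam k Ω W) {x y z t : Ω} (h1 : x ≠ y) (h2 : x ≠ z)
    (h3 : y ≠ z) (h4 : t ≠ x) (h5 : t ≠ y)
    (hn : ¬ ∃ c : ℂ, ∀ q ∈ Conf k, rat W x y z q = c) :
    ¬ ∃ c : ℂ, ∀ q ∈ Conf k, rat W x y t q = c := by
  by_cases h6 : t = z
  · rw [h6]
    exact hn
  rintro ⟨c, hc⟩
  obtain ⟨q0, hq0⟩ := conf_nonempty k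
  have hc0 : c ≠ 0 := by
    rw [← hc q0 hq0]
    exact rat_ne_zero hW h1 h4.symm hq0
  have hc1 : c ≠ 1 := by
    rw [← hc q0 hq0]
    exact rat_ne_one hW h4.symm h5.symm hq0
  have ht : Typ (rat W x y z) := (rat_unit hW h1 h2 h3).resolve_left hn
  obtain ⟨q, hq, he⟩ := typ_value _ ht c hc0 hc1
  rw [← hc q hq] at he
  unfold rat at he
  have e1 : W x q - W y q ≠ 0 := sub_ne_zero.2 (hW.sep _ _ h1 q hq)
  have e2 : W x q - W z q ≠ 0 := sub_ne_zero.2 (hW.sep _ _ h2 q hq)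
  have e3 : W x q - W t q ≠ 0 := sub_ne_zero.2 (hW.sep _ _ h4.symm q hq)
  rw [div_eq_div_iff e2 e3] at he
  have e4 := mul_left_cancel₀ e1 he
  exact hW.sep _ _ h6 q hq (sub_right_injective e4)

theorem all_typ {k : ℕ} {Ω : Type} [MulAction (Equiv.Perm (Fin k)) Ω] (W : Ω → (Fin k → ℂ) → ℂ)
    (hW : Fam k Ω W) (x₀ y₀ z₀ : Ω) (hxy : x₀ ≠ y₀) (hxz : x₀ ≠ z₀) (hyz : y₀ ≠ z₀)
    (hn : ¬ ∃ c : ℂ, ∀ q ∈ Conf k, rat W x₀ y₀ z₀ q = c) (x y z : Ω) (h1 : x ≠ y) (h2 : x ≠ z) (h3 : y ≠ z) :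
    Typ (rat W x y z) := by
  -- the unordered triple `{x, y, z}` is not constant
  set N : Ω → Ω → Ω → Prop := fun x y z => x ≠ y ∧ x ≠ z ∧ y ≠ z ∧
    ¬ ∃ c : ℂ, ∀ q ∈ Conf k, rat W x y z q = c with hN
  have ra : ∀ x y z, N x y z → N x z y := fun x y z h =>
    ⟨h.2.1, h.1, h.2.2.1.symm, fun h4 => h.2.2.2 (const_a h4)⟩
  have rb : ∀ x y z, N x y z → N z y x := fun x y z h =>
    ⟨h.2.2.1.symm, h.2.1.symm, h.1.symm, fun h4 => h.2.2.2 (const_b hW h.2.1 h4)⟩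
  have rc : ∀ x y z t, N x y z → t ≠ x → t ≠ y → N x y t := fun x y z t h h4 h5 =>
    ⟨h.1, h4.symm, h5.symm, const_c hW h.1 h.2.1 h.2.2.1 h4 h5 h.2.2.2⟩
  have s0 : N x₀ y₀ z₀ := ⟨hxy, hxz, hyz, hn⟩
  have s1 : ∃ p q, N x p q := by
    by_cases e1 : x = x₀
    · exact ⟨y₀, z₀, by rw [e1]; exact s0⟩
    by_cases e2 : x = y₀
    · refine ⟨z₀, x₀, ?_⟩
      rw [e2]
      exact rb _ _ _ (ra _ _ _ s0)
    · exact ⟨y₀, x₀, rb _ _ _ (rc _ _ _ x s0 e1 e2)⟩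
  obtain ⟨p, q, s1⟩ := s1
  have s2 : ∃ r, N x y r := by
    by_cases e1 : y = p
    · exact ⟨q, by rw [e1]; exact s1⟩
    · exact ⟨p, ra _ _ _ (rc _ _ _ y s1 h1.symm e1)⟩
  obtain ⟨r, s2⟩ := s2
  have s3 := rc _ _ _ z s2 h2.symm h3.symm
  exact (rat_unit hW h1 h2 h3).resolve_left s3.2.2.2

theorem swap_fix {k : ℕ} {Ω : Type} [MulAction (Equiv.Perm (Fin k)) Ω] (W : Ω → (Fin k → ℂ) → ℂ)
    (hW : Fam k Ω W) (ht : ∀ x y z : Ω, x ≠ y → x ≠ z → y ≠ z → Typ (rat W x y z))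
    (a b : Fin k) (hab : a ≠ b) (x y : Ω) (h1 : Equiv.swap a b • x ≠ x) (h2 : y ≠ x)
    (h3 : y ≠ Equiv.swap a b • x) : Equiv.swap a b • y = y := by
  by_contra hne
  have h4 : x ≠ Equiv.swap a b • x := h1.symm
  obtain ⟨q, hq, he⟩ := typ_swap _ (ht x (Equiv.swap a b • x) y h4 h2.symm h3.symm) a b hab
  have hJ : Equiv.swap a b • (Equiv.swap a b • x) = x := by
    rw [smul_smul, Equiv.swap_mul_self, one_smul]
  unfold rat at he
  rw [← hW.eqv _ x q hq, ← hW.eqv _ (Equiv.swap a b • x) q hq, ← hW.eqv _ y q hq, hJ, inv_div,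
    inv_div] at he
  have e1 : W x q - W (Equiv.swap a b • x) q ≠ 0 := sub_ne_zero.2 (hW.sep _ _ h4 q hq)
  have e2 : W (Equiv.swap a b • x) q - W x q ≠ 0 := sub_ne_zero.2 (hW.sep _ _ h1 q hq)
  rw [div_add_div _ _ e1 e2, div_eq_one_iff_eq (mul_ne_zero e1 e2)] at he
  refine hW.sep _ _ hne q hq ?_
  have e3 : (W x q - W (Equiv.swap a b • x) q) *
      (W (Equiv.swap a b • y) q - W y q) = 0 := by
    linear_combination -he
  rcases mul_eq_zero.1 e3 with h | h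
  · exact absurd h e1
  · exact sub_eq_zero.1 h

end Pool.Agent.Helper93.L3
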