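import Mathlib

/-!
# LN3-R1 (MP_730da0_ag): linear forms with the same zeros on injective vectors

Paper proof.  Write `L y = ∑ L_i y_i` (so `L (y + const) = L y`).
(A) If `L` is not zero and has a zero `y₀` which is injective, and every injective zero of `L` is a zero of `L'`, then `L' = c L`: for `w` with `L w = 0` the vector `y₀ + e w` is injective for all but finitely many
`e : ℂ` (`y₀ i + e w i = y₀ j + e w j` for at most one `e`), so `L' (y₀ + e w) = 0` for some `e ≠ 0`, and `L' y₀ = 0`, so `L' w = 0`.  Take `i` with `L i ≠ 0`, `w = e_j - (L j / L i) e_i`: `L' j = (L' i / L i) L j`.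
(B) If `L ≠ 0` has no injective zero, then `L = α (e_i - e_j)` with `i ≠ j`, `α ≠ 0`: otherwise the support of `L` has at least three elements (one is impossible, the sum is `0`), so there are `i ≠ j` in the support
with `L i + L j ≠ 0` (if `L i = - L j = L m = - L i` ...).  Choose the other `y_m` different, `R = ∑_(m ≠ i, j) L m y_m`, `y_j = t`, `y_i = - (L j t + R) / L i`: it is injective for all but finitely many `t`
(`y_i = t` iff `(L i + L j) t = - R`; `y_i = y_m` iff `L j t = - R - L i y_m`), contradiction.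
(C) If `L = 0` on all injective vectors, then `L = 0` (vary one coordinate).
Theorem.  If `L` has an injective zero and `L ≠ 0`: (A).  If `L = 0` then `L' = 0` (C).  If `L ≠ 0` has no injective zero, neither has `L'` nor `L' - L` (`h1`, `h2`); they are not zero.  So (B)
`L = α (e_i - e_j)`, `L' = β (e_m - e_n)`, `L' - L = γ (e_p - e_r)`.  If `{i, j} = {m, n}` then `L' = c L`.  Otherwise (compare supports) the supports of `L'` and `L' - L` meet in one index `i`
and all coefficients match.
-/

namespace Pool.Agent.Helper93.L3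

private theorem gen_fin {ι : Type} [Fintype ι] (u v : ι → ℂ)
    (h : ∀ i j, i ≠ j → u i ≠ u j ∨ v i ≠ v j) :
    {t : ℂ | ¬ Function.Injective (fun i => u i + t * v i)}.Finite := by
  have hsub : {t : ℂ | ¬ Function.Injective (fun i => u i + t * v i)} ⊆
      ⋃ p : ι × ι, {t : ℂ | p.1 ≠ p.2 ∧ u p.1 + t * v p.1 = u p.2 + t * v p.2} := by
    intro t ht
    simp only [Set.mem_setOf_eq, Function.Injective, not_forall] at ht
    obtain ⟨i, j, hij, hne⟩ := ht
    exact Set.mem_iUnion.2 ⟨(i, j), hne, hij⟩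
  refine Set.Finite.subset (Set.finite_iUnion fun p => ?_) hsub
  apply Set.Subsingleton.finite
  rintro t ⟨hne, ht⟩ s ⟨_, hs⟩
  by_cases hv : v p.1 = v p.2
  · have := h _ _ hne
    rw [hv] at ht
    exact absurd (add_right_cancel ht) (this.resolve_right (fun k => k hv))
  · have e : (t - s) * (v p.1 - v p.2) = 0 := by linear_combination ht - hs
    rcases mul_eq_zero.1 e with e | e
    · exact sub_eq_zero.1 e
    · exact absurd (sub_eq_zero.1 e) hv

private theorem gen_ex {ι : Type} [Fintype ι] (u v : ι → ℂ)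
    (h : ∀ i j, i ≠ j → u i ≠ u j ∨ v i ≠ v j) :
    ∃ t : ℂ, t ≠ 0 ∧ Function.Injective (fun i => u i + t * v i) := by
  obtain ⟨t, ht⟩ := ((gen_fin u v h).insert 0).infinite_compl.nonempty
  refine ⟨t, fun h0 => ht (Set.mem_insert_iff.2 (Or.inl h0)), ?_⟩
  by_contra hc
  exact ht (Set.mem_insert_iff.2 (Or.inr hc))

private theorem exists_inj (ι : Type) [Fintype ι] : ∃ y : ι → ℂ, Function.Injective y :=
  ⟨fun i => ((Fintype.equivFin ι i : ℕ) : ℂ), fun i j hij => by
    have h1 : ((Fintype.equivFin ι i : ℕ) : ℂ) = ((Fintype.equivFin ι j : ℕ) : ℂ) := hij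
    have h2 : (Fintype.equivFin ι i : ℕ) = (Fintype.equivFin ι j : ℕ) := by exact_mod_cast h1
    exact (Fintype.equivFin ι).injective (Fin.ext h2)⟩

private theorem sum_add_smul {ι : Type} [Fintype ι] (L u v : ι → ℂ) (t : ℂ) :
    ∑ i, L i * (u i + t * v i) = ∑ i, L i * u i + t * ∑ i, L i * v i := by
  rw [Finset.mul_sum, ← Finset.sum_add_distrib]
  exact Finset.sum_congr rfl fun i _ => by ring

theorem form_zero {ι : Type} [Fintype ι] [DecidableEq ι] (L : ι → ℂ)
    (h : ∀ y : ι → ℂ, Function.Injective y → ∑ i, L i * y i = 0) : L = 0 := by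
  obtain ⟨y, hy⟩ := exists_inj ι
  funext i
  obtain ⟨t, ht, hinj⟩ := gen_ex y (Pi.single i 1) (fun a b hab => Or.inl (hy.ne hab))
  have h1 := h _ hinj
  rw [sum_add_smul, h y hy, zero_add] at h1
  have h2 := (mul_eq_zero.1 h1).resolve_left ht
  simpa [Pi.single_apply] using h2

theorem form_A {ι : Type} [Fintype ι] [DecidableEq ι] (L L' : ι → ℂ) (hL : L ≠ 0)
    (h : ∀ y : ι → ℂ, Function.Injective y → ∑ i, L i * y i = 0 → ∑ i, L' i * y i = 0)
    (hz : ∃ y : ι → ℂ, Function.Injective y ∧ ∑ i, L i * y i = 0) : ∃ c : ℂ, ∀ i, L' i = c * L i := by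
  obtain ⟨y, hy, hy0⟩ := hz
  have key : ∀ w : ι → ℂ, ∑ i, L i * w i = 0 → ∑ i, L' i * w i = 0 := by
    intro w hw
    obtain ⟨t, ht, hinj⟩ := gen_ex y w (fun a b hab => Or.inl (hy.ne hab))
    have h1 := h _ hinj (by rw [sum_add_smul, hy0, hw]; ring)
    rw [sum_add_smul, h y hy hy0, zero_add] at h1
    exact (mul_eq_zero.1 h1).resolve_left ht
  obtain ⟨i, hi⟩ := Function.ne_iff.1 hL
  have hi' : L i ≠ 0 := hi
  refine ⟨L' i / L i, fun j => ?_⟩
  have h2 := key (fun m => (Pi.single j 1 : ι → ℂ) m - (L j / L i) * (Pi.single i 1 : ι → ℂ) m) (by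
    simp only [mul_sub, Finset.sum_sub_distrib, Pi.single_apply, mul_ite, mul_one, mul_zero,
      Finset.sum_ite_eq', Finset.mem_univ, if_true]
    field_simp
    ring)
  simp only [mul_sub, Finset.sum_sub_distrib, Pi.single_apply, mul_ite, mul_one, mul_zero,
      Finset.sum_ite_eq', Finset.mem_univ, if_true] at h2
  have h3 : L' j = L' i * (L j / L i) := sub_eq_zero.1 h2
  rw [h3]
  ring

private theorem pair_zero {ι : Type} [Fintype ι] [DecidableEq ι] (L : ι → ℂ)
    (hz : ¬ ∃ y : ι → ℂ, Function.Injective y ∧ ∑ i, L i * y i = 0) (i j : ι) (hij : i ≠ j)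
    (hi : L i ≠ 0) (hj : L j ≠ 0) : L i + L j = 0 := by
  by_contra hs
  apply hz
  obtain ⟨y, hy⟩ := exists_inj ι
  have hsplit : ∀ f : ι → ℂ, ∑ m, f m = f i + f j + ∑ m ∈ (Finset.univ.erase i).erase j, f m := by
    intro f
    have hj' : j ∈ Finset.univ.erase i := Finset.mem_erase.2 ⟨hij.symm, Finset.mem_univ _⟩
    rw [← Finset.add_sum_erase _ _ (Finset.mem_univ i), ← Finset.add_sum_erase _ _ hj']
    ring
  have hout : ∀ m ∈ (Finset.univ.erase i).erase j, m ≠ i ∧ m ≠ j := by
    intro m hm
    simp only [Finset.mem_erase, Finset.mem_univ, and_true] at hm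
    exact ⟨hm.2, hm.1⟩
  set R : ℂ := ∑ m ∈ (Finset.univ.erase i).erase j, L m * y m with hR
  set u : ι → ℂ := fun m => if m = i then -R / L i else if m = j then 0 else y m with hu
  set v : ι → ℂ := fun m => if m = i then -L j / L i else if m = j then 1 else 0 with hv
  have hui : u i = -R / L i := by simp [hu]
  have huj : u j = 0 := by simp [hu, hij.symm]
  have hum : ∀ m, m ≠ i → m ≠ j → u m = y m := fun m h1 h2 => by simp [hu, h1, h2]
  have hvi : v i = -L j / L i := by simp [hv]
  have hvj : v j = 1 := by simp [hv, hij.symm]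
  have hvm : ∀ m, m ≠ i → m ≠ j → v m = 0 := fun m h1 h2 => by simp [hv, h1, h2]
  have hLu : ∑ m, L m * u m = 0 := by
    rw [hsplit, hui, huj]
    have : ∑ m ∈ (Finset.univ.erase i).erase j, L m * u m = R := by
      rw [hR]
      exact Finset.sum_congr rfl fun m hm => by rw [hum m (hout m hm).1 (hout m hm).2]
    rw [this]
    field_simp
    ring
  have hLv : ∑ m, L m * v m = 0 := by
    rw [hsplit, hvi, hvj]
    have : ∑ m ∈ (Finset.univ.erase i).erase j, L m * v m = 0 :=
      Finset.sum_eq_zero fun m hm => by rw [hvm m (hout m hm).1 (hout m hm).2, mul_zero]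
    rw [this]
    field_simp
    ring
  have hvi0 : v i ≠ 0 := by
    rw [hvi]
    exact div_ne_zero (neg_ne_zero.2 hj) hi
  have hvi1 : v i ≠ 1 := by
    rw [hvi]
    intro h1
    rw [div_eq_one_iff_eq hi] at h1
    apply hs
    rw [← h1]
    ring
  obtain ⟨t, -, hinj⟩ := gen_ex u v (by
    intro a b hab
    by_cases ha : a = i
    · subst ha
      by_cases hb : b = j
      · subst hb
        right
        rw [hvj]
        exact hvi1
      · right
        rw [hvm b (Ne.symm hab) hb]
        exact hvi0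
    · by_cases ha' : a = j
      · subst ha'
        by_cases hb : b = i
        · subst hb
          right
          rw [hvj]
          exact hvi1.symm
        · right
          rw [hvj, hvm b hb (Ne.symm hab)]
          exact one_ne_zero
      · by_cases hb : b = i
        · subst hb
          right
          rw [hvm a ha ha']
          exact hvi0.symm
        · by_cases hb' : b = j
          · subst hb'
            right
            rw [hvj, hvm a ha ha']
            exact zero_ne_one
          · left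
            rw [hum a ha ha', hum b hb hb']
            exact hy.ne hab)
  refine ⟨_, hinj, ?_⟩
  rw [sum_add_smul, hLu, hLv]
  ring

theorem form_B {ι : Type} [Fintype ι] [DecidableEq ι] (L : ι → ℂ) (hL : L ≠ 0) (h0 : ∑ i, L i = 0)
    (hz : ¬ ∃ y : ι → ℂ, Function.Injective y ∧ ∑ i, L i * y i = 0) :
    ∃ i j : ι, ∃ α : ℂ, i ≠ j ∧ α ≠ 0 ∧ ∀ m, L m = if m = i then α else if m = j then -α else 0 := by
  obtain ⟨i, hi⟩ := Function.ne_iff.1 hL
  have hi' : L i ≠ 0 := hi
  have hex : ∃ j, j ≠ i ∧ L j ≠ 0 := by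
    by_contra hc
    push Not at hc
    apply hi'
    rw [← h0, Finset.sum_eq_single i (fun b _ hb => hc b hb) (fun h => absurd (Finset.mem_univ i) h)]
  obtain ⟨j, hji, hj⟩ := hex
  have e1 := pair_zero L hz i j hji.symm hi' hj
  refine ⟨i, j, L i, hji.symm, hi', fun m => ?_⟩
  by_cases hmi : m = i
  · rw [if_pos hmi, hmi]
  · rw [if_neg hmi]
    by_cases hmj : m = j
    · rw [if_pos hmj, hmj]
      linear_combination e1
    · rw [if_neg hmj]
      by_contra hm
      have e2 := pair_zero L hz m i hmi hm hi'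
      have e3 := pair_zero L hz m j hmj hm hj
      apply hi'
      have e4 : (2 : ℂ) * L i = 0 := by linear_combination e1 + e2 - e3
      exact (mul_eq_zero.1 e4).resolve_left two_ne_zero

private theorem sum_pair {ι : Type} [Fintype ι] [DecidableEq ι] (L : ι → ℂ) (i j : ι) (α : ℂ) (hij : i ≠ j)
    (h : ∀ m, L m = if m = i then α else if m = j then -α else 0) (y : ι → ℂ) :
    ∑ m, L m * y m = α * (y i - y j) := by
  have h1 : ∀ m, L m * y m = (if m = i then α * y m else 0) + (if m = j then -α * y m else 0) := by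
    intro m
    rw [h m]
    by_cases hmi : m = i
    · subst hmi
      simp [hij]
    · by_cases hmj : m = j
      · subst hmj
        simp [hij.symm]
      · simp [hmi, hmj]
  rw [Finset.sum_congr rfl fun m _ => h1 m, Finset.sum_add_distrib]
  simp only [Finset.sum_ite_eq', Finset.mem_univ, if_true]
  ring

/-- the three forms share one index -/
private theorem meet {ι : Type} [Fintype ι] [DecidableEq ι] (L L' : ι → ℂ) (x y z : ι) (α β : ℂ)
    (hxy : x ≠ y) (hxz : x ≠ z) (hyz : y ≠ z) (hα : α ≠ 0) (hβ : β ≠ 0)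
    (hL' : ∀ m, L' m = if m = x then β else if m = y then -β else 0)
    (hL : ∀ m, L m = if m = x then α else if m = z then -α else 0)
    (hD : ∃ p r : ι, ∃ γ : ℂ, p ≠ r ∧ γ ≠ 0 ∧ ∀ m, L' m - L m = if m = p then γ else if m = r then -γ else 0) :
    ∃ i j l : ι, ∃ α : ℂ, i ≠ j ∧ i ≠ l ∧ j ≠ l ∧ α ≠ 0 ∧
        (∀ y : ι → ℂ, ∑ m, L' m * y m = α * (y i - y j)) ∧
        (∀ y : ι → ℂ, ∑ m, (L' m - L m) * y m = α * (y i - y l)) := by
  obtain ⟨p, r, γ, hpr, hγ, hD⟩ := hD
  have hy : L' y - L y = -β := by rw [hL', hL]; simp [hxy.symm, hyz]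
  have hz : L' z - L z = α := by rw [hL', hL]; simp [hxz.symm, hyz.symm]
  have hx : L' x - L x = β - α := by rw [hL', hL]; simp
  have hy' : y = p ∨ y = r := by
    by_contra hc
    push Not at hc
    rw [hD y, if_neg hc.1, if_neg hc.2] at hy
    exact hβ (neg_eq_zero.1 hy.symm)
  have hz' : z = p ∨ z = r := by
    by_contra hc
    push Not at hc
    rw [hD z, if_neg hc.1, if_neg hc.2] at hz
    exact hα hz.symm
  have hx' : x ≠ p ∧ x ≠ r := by
    rcases hy' with h1 | h1 <;> rcases hz' with h2 | h2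
    · exact absurd (h1.trans h2.symm) hyz
    · exact ⟨fun h => hxy (h.trans h1.symm), fun h => hxz (h.trans h2.symm)⟩
    · exact ⟨fun h => hxz (h.trans h2.symm), fun h => hxy (h.trans h1.symm)⟩
    · exact absurd (h1.trans h2.symm) hyz
  have hab : β = α := by
    rw [hD x, if_neg hx'.1, if_neg hx'.2] at hx
    exact sub_eq_zero.1 hx.symm
  subst hab
  refine ⟨y, x, z, -β, hxy.symm, hyz, hxz, neg_ne_zero.2 hβ, ?_, ?_⟩
  · intro w
    rw [sum_pair L' x y β hxy hL' w]
    ring
  · intro w
    have h1 : ∀ m, L' m - L m = if m = z then β else if m = y then -β else 0 := by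
      intro m
      by_cases hmx : m = x
      · subst hmx
        rw [hx, if_neg hxz, if_neg hxy, sub_self]
      · by_cases hmy : m = y
        · subst hmy
          rw [hy, if_neg hyz, if_pos rfl]
        · by_cases hmz : m = z
          · subst hmz
            rw [hz, if_pos rfl]
          · rw [hL', hL, if_neg hmx, if_neg hmy, if_neg hmx, if_neg hmz, if_neg hmz, sub_self]
    rw [sum_pair (fun m => L' m - L m) z y β hyz.symm h1 w]
    ring

private theorem swap_form {ι : Type} [DecidableEq ι] {L : ι → ℂ} {i j : ι} {α : ℂ} (hij : i ≠ j)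
    (h : ∀ m, L m = if m = i then α else if m = j then -α else 0) :
    ∀ m, L m = if m = j then -α else if m = i then - (-α) else 0 := by
  intro m
  rw [h m]
  by_cases hmi : m = i
  · subst hmi
    simp [hij]
  · by_cases hmj : m = j
    · subst hmj
      simp [hmi]
    · simp [hmi, hmj]

theorem forms {ι : Type} [Fintype ι] [DecidableEq ι] (L L' : ι → ℂ) (h0 : ∑ i, L i = 0) (h0' : ∑ i, L' i = 0)
    (h1 : ∀ y : ι → ℂ, Function.Injective y → (∑ i, L i * y i = 0 ↔ ∑ i, L' i * y i = 0))
    (h2 : ∀ y : ι → ℂ, Function.Injective y → (∑ i, (L' i - L i) * y i = 0 ↔ ∑ i, L' i * y i = 0)) :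
    ((∀ i, L i = 0) ∧ ∀ i, L' i = 0) ∨ (∃ c : ℂ, L ≠ 0 ∧ ∀ i, L' i = c * L i) ∨
      ∃ i j l : ι, ∃ α : ℂ, i ≠ j ∧ i ≠ l ∧ j ≠ l ∧ α ≠ 0 ∧
        (∀ y : ι → ℂ, ∑ m, L' m * y m = α * (y i - y j)) ∧
        (∀ y : ι → ℂ, ∑ m, (L' m - L m) * y m = α * (y i - y l)) := by
  by_cases hL : L = 0
  · left
    refine ⟨fun i => congrFun hL i, ?_⟩
    have : L' = 0 := form_zero L' fun y hy => (h1 y hy).1 (by simp [hL])
    exact fun i => congrFun this i
  right
  by_cases hz : ∃ y : ι → ℂ, Function.Injective y ∧ ∑ i, L i * y i = 0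
  · left
    obtain ⟨c, hc⟩ := form_A L L' hL (fun y hy h => (h1 y hy).1 h) hz
    exact ⟨c, hL, hc⟩
  have hz' : ¬ ∃ y : ι → ℂ, Function.Injective y ∧ ∑ i, L' i * y i = 0 := by
    rintro ⟨y, hy, h⟩
    exact hz ⟨y, hy, (h1 y hy).2 h⟩
  have hzD : ¬ ∃ y : ι → ℂ, Function.Injective y ∧ ∑ i, (L' i - L i) * y i = 0 := by
    rintro ⟨y, hy, h⟩
    exact hz' ⟨y, hy, (h2 y hy).1 h⟩
  obtain ⟨y₀, hy₀⟩ := exists_inj ι
  have hL' : L' ≠ 0 := by
    intro h
    exact hz' ⟨y₀, hy₀, by simp [h]⟩
  have hD : (fun i => L' i - L i) ≠ 0 := by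
    intro h
    refine hzD ⟨y₀, hy₀, Finset.sum_eq_zero fun i _ => ?_⟩
    have : L' i - L i = 0 := congrFun h i
    rw [this, zero_mul]
  obtain ⟨i, j, α, hij, hα, eL⟩ := form_B L hL h0 hz
  obtain ⟨m, n, β, hmn, hβ, eL'⟩ := form_B L' hL' h0' hz'
  have hDD := form_B (fun i => L' i - L i) hD (by rw [Finset.sum_sub_distrib, h0, h0', sub_self]) hzD
  by_cases e1 : m = i
  · subst e1
    by_cases e2 : n = j
    · subst e2
      left
      refine ⟨β / α, hL, fun t => ?_⟩
      rw [eL', eL]
      split_ifs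
      · field_simp
      · field_simp
      · ring
    · right
      exact meet L L' m n j α β hmn hij e2 hα hβ eL' eL hDD
  · by_cases e2 : m = j
    · subst e2
      by_cases e3 : n = i
      · subst e3
        left
        refine ⟨-β / α, hL, fun t => ?_⟩
        rw [swap_form hmn eL', eL]
        split_ifs
        · field_simp
        · field_simp
        · ring
      · right
        exact meet L L' m n i (-α) β hmn (Ne.symm hij) e3 (neg_ne_zero.2 hα) hβ eL' (swap_form hij eL) hDD
    · by_cases e3 : n = i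
      · subst e3
        right
        exact meet L L' n m j α (-β) (Ne.symm hmn) hij e2 hα (neg_ne_zero.2 hβ) (swap_form hmn eL') eL hDD
      · by_cases e4 : n = j
        · subst e4
          right
          exact meet L L' n m i (-α) (-β) (Ne.symm hmn) (Ne.symm hij) e1 (neg_ne_zero.2 hα) (neg_ne_zero.2 hβ)
            (swap_form hmn eL') (swap_form hij eL) hDD
        · exfalso
          obtain ⟨p, r, γ, hpr, hγ, eD⟩ := hDD
          have a1 : L' m - L m = β := by rw [eL', eL]; simp [e1, e2]
          have a2 : L' n - L n = -β := by rw [eL', eL]; simp [hmn.symm, e3, e4]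
          have a3 : L' i - L i = -α := by rw [eL', eL]; simp [Ne.symm e1, Ne.symm e3]
          have in2 : ∀ x, L' x - L x ≠ 0 → x = p ∨ x = r := by
            intro x hx
            by_contra hc
            push Not at hc
            apply hx
            have := eD x
            rw [if_neg hc.1, if_neg hc.2] at this
            exact this
          have b1 := in2 m (by rw [a1]; exact hβ)
          have b2 := in2 n (by rw [a2]; exact neg_ne_zero.2 hβ)
          have b3 := in2 i (by rw [a3]; exact neg_ne_zero.2 hα)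
          rcases b1 with b1 | b1 <;> rcases b2 with b2 | b2 <;> rcases b3 with b3 | b3
          · exact hmn (b1.trans b2.symm)
          · exact hmn (b1.trans b2.symm)
          · exact e1 (b1.trans b3.symm)
          · exact e3 (b2.trans b3.symm)
          · exact e3 (b2.trans b3.symm)
          · exact e1 (b1.trans b3.symm)
          · exact hmn (b1.trans b2.symm)
          · exact hmn (b1.trans b2.symm)

end Pool.Agent.Helper93.L3
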