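import Mathlib

/-!
# LN3-R5 (MP_730da0_ag): actions in which every transposition acts as a transposition or trivially

`G = Equiv.Perm (Fin k)`, `k ≥ 5`, acts on `Ω`.  `h`: if `swap a b` moves `x`, it fixes every `y ≠ x, swap a b • x`.
Paper proof.  Suppose some 3-cycle acts nontrivially.  All transpositions are conjugate, so all act nontrivially (if one acts trivially all do, and 3-cycles are products of two), so every `τ = swap a b` moves exactly two
points `{x, τ x} =: supp τ`; `supp (σ τ σ⁻¹) = σ • supp τ`.
(1) `swap a b` and `swap c d` (disjoint) commute, and so `supp` of one is invariant under the other: the supports are equal or disjoint (if `x ∈` both supports, then `y = swap a b • x`; `swap c d` preserves `{x, y}`, so equal).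
(2) If two different transpositions act in the same way, then `A_k` acts trivially: the set of `σ` acting trivially is a normal subgroup; it contains `swap a b * swap c d` (or `swap a b * swap b c`, a 3-cycle), and (for `k ≥ 5`)
`swap a b * swap c d` times its conjugate `swap a b * swap d e` (conjugate by a permutation fixing `a`, `b`) is the 3-cycle `swap c d * swap d e`; all 3-cycles are conjugate
(`Equiv.Perm.isConj_iff_cycleType_eq`, or directly).
So the supports of disjoint transpositions are disjoint, and (3) the supports of `swap a b`, `swap b c` (`a ≠ c`) have exactly one common point: they are not equal by (2); not disjoint, otherwise `swap a b` and `swap b c` commute on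
`Ω`, so the 3-cycle `swap a b * swap b c` acts with square `1` and cube `1`: trivially.
(4) Fix `a` and different `b, c, d` other than `a`: the supports of `swap a b`, `swap a c`, `swap a d` meet pairwise in one point; if they have no common point they are `{1,2}`, `{2,3}`, `{1,3}`; `swap b c = swap a b * swap a c * swap a b` has the
support `swap a b • {2,3} = {1,3} =` the support of the disjoint `swap a d`: contradiction.  So there is a common point; with (3) it is the same for all triples: there is exactly one `ι a` in the supports of all `swap a b`, `b ≠ a`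
(take `b, c` fixed: `ι a` is the common point of `supp (swap a b)`, `supp (swap a c)`, and it is in `supp (swap a d)` for all other `d`).
(5) `σ • ι a = ι (σ a)` by uniqueness.  `ι a ≠ ι b` for `a ≠ b`: take `c, d` other than `a`, `b`: `ι a ∈ supp (swap a c)`, `ι b ∈ supp (swap b d)`, which are disjoint.
-/

namespace Pool.Agent.Helper93.L3

open Equiv

theorem group_swap {k : ℕ} (hk : 5 ≤ k) {Ω : Type} [MulAction (Equiv.Perm (Fin k)) Ω]
    (h : ∀ a b : Fin k, a ≠ b → ∀ x y : Ω, Equiv.swap a b • x ≠ x → y ≠ x → y ≠ Equiv.swap a b • x →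
      Equiv.swap a b • y = y)
    (hne : ∃ σ : Equiv.Perm (Fin k), σ.IsThreeCycle ∧ ∃ x : Ω, σ • x ≠ x) :
    ∃ i : Fin k → Ω, Function.Injective i ∧ ∀ (σ : Equiv.Perm (Fin k)) a, σ • i a = i (σ a) := by
  classical
  -- free points
  have hfree : ∀ s : Finset (Fin k), s.card < k → ∃ e, e ∉ s := by
    intro s hs
    by_contra hcon
    push Not at hcon
    have : s = Finset.univ := Finset.eq_univ_iff_forall.mpr hcon
    rw [this, Finset.card_univ, Fintype.card_fin] at hs
    omega
  have hinv : ∀ (a b : Fin k) (x : Ω), swap a b • swap a b • x = x := by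
    intro a b x
    rw [smul_smul, swap_mul_self, one_smul]
  -- conjugation
  have hconj : ∀ (σ : Perm (Fin k)) (a b : Fin k) (x : Ω),
      swap (σ a) (σ b) • σ • x = σ • swap a b • x := by
    intro σ a b x
    rw [smul_smul, smul_smul]
    congr 1
    rw [swap_apply_apply]
    simp
  have hTconj : ∀ (σ : Perm (Fin k)) (a b : Fin k) (x : Ω),
      swap a b • x ≠ x → swap (σ a) (σ b) • σ • x ≠ σ • x := by
    intro σ a b x hx hcon
    rw [hconj] at hcon
    exact hx (MulAction.injective σ hcon)
  -- (K3)
  have K3 : ∀ σ : Perm (Fin k), σ.IsThreeCycle → (∀ x : Ω, σ • x = x) → False := by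
    intro σ hσ htriv
    obtain ⟨τ, hτ, x, hx⟩ := hne
    have hc : IsConj σ τ := by
      rw [Perm.isConj_iff_cycleType_eq, hσ.cycleType, hτ.cycleType]
    obtain ⟨g, hg⟩ := isConj_iff.mp hc
    apply hx
    rw [← hg, mul_smul, mul_smul, htriv, smul_inv_smul]
  have K3' : ∀ a b c : Fin k, a ≠ b → a ≠ c → b ≠ c → (∀ x : Ω, swap a b • swap a c • x = x) → False := by
    intro a b c hab hac hbc htriv
    refine K3 (swap a b * swap a c) (Perm.isThreeCycle_swap_mul_swap_same hab hac hbc) ?_
    intro x
    rw [mul_smul]
    exact htriv x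
  -- (K22)
  have K22 : ∀ a b c d : Fin k, a ≠ b → a ≠ c → a ≠ d → b ≠ c → b ≠ d → c ≠ d →
      (∀ x : Ω, swap a b • swap c d • x = x) → False := by
    intro a b c d hab hac had hbc hbd hcd htriv
    obtain ⟨e, he⟩ := hfree {a, b, c, d} (by
      have := Finset.card_le_four (a := a) (b := b) (c := c) (d := d)
      omega)
    simp only [Finset.mem_insert, Finset.mem_singleton, not_or] at he
    obtain ⟨hea, heb, hec, hed⟩ := he
    have h1 : ∀ x : Ω, swap a b • swap e d • x = x := by
      intro x
      have h2 := htriv ((swap c e)⁻¹ • x)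
      have h3 := congrArg (fun y => swap c e • y) h2
      simp only [smul_inv_smul] at h3
      have h4 := hconj (swap c e) a b (swap c d • (swap c e)⁻¹ • x)
      have h5 := hconj (swap c e) c d ((swap c e)⁻¹ • x)
      rw [swap_apply_of_ne_of_ne hac (Ne.symm hea), swap_apply_of_ne_of_ne hbc (Ne.symm heb)] at h4
      rw [swap_apply_left, swap_apply_of_ne_of_ne hcd.symm (Ne.symm hed), smul_inv_smul] at h5
      rw [← h4, ← h5] at h3
      exact h3
    -- `swap d c`, `swap d e` act the same way
    have h6 : ∀ x : Ω, swap c d • x = swap a b • x := by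
      intro x
      have := htriv x
      have h7 := congrArg (fun y => swap a b • y) this
      simp only [hinv] at h7
      exact h7
    have h8 : ∀ x : Ω, swap e d • x = swap a b • x := by
      intro x
      have := h1 x
      have h7 := congrArg (fun y => swap a b • y) this
      simp only [hinv] at h7
      exact h7
    refine K3' d c e hcd.symm (Ne.symm hed) (Ne.symm hec) ?_
    intro x
    rw [swap_comm d c, swap_comm d e, h8, h6, hinv]
  -- (K2) : all transpositions act nontrivially
  have F0 : ∀ a b : Fin k, a ≠ b → ∃ x : Ω, swap a b • x ≠ x := by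
    intro a b hab
    by_contra hcon
    push Not at hcon
    obtain ⟨c, hc⟩ := hfree {a, b} (by
      have := Finset.card_le_two (a := a) (b := b)
      omega)
    simp only [Finset.mem_insert, Finset.mem_singleton, not_or] at hc
    obtain ⟨hca, hcb⟩ := hc
    refine K3' a b c hab (Ne.symm hca) (Ne.symm hcb) ?_
    intro x
    have h1 : swap a c • x = x := by
      have h2 := hconj (swap b c) a b ((swap b c)⁻¹ • x)
      rw [swap_apply_of_ne_of_ne hab (Ne.symm hca), swap_apply_left, smul_inv_smul, hcon,
        smul_inv_smul] at h2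
      exact h2
    rw [h1, hcon]
  -- two points in a support
  have F1 : ∀ a b : Fin k, a ≠ b → ∀ x y : Ω, swap a b • x ≠ x → swap a b • y ≠ y →
      y = x ∨ y = swap a b • x := by
    intro a b hab x y hx hy
    by_contra hcon
    push Not at hcon
    exact hy (h a b hab x y hx hcon.1 hcon.2)
  have F1' : ∀ (a b : Fin k) (x : Ω), swap a b • x ≠ x → swap a b • swap a b • x ≠ swap a b • x := by
    intro a b x hx hcon
    rw [hinv] at hcon
    exact hx hcon.symm
  -- same supports: same action
  have S2 : ∀ a b c d : Fin k, a ≠ b → c ≠ d →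
      (∀ x : Ω, swap a b • x ≠ x ↔ swap c d • x ≠ x) → ∀ x : Ω, swap a b • swap c d • x = x := by
    intro a b c d hab hcd hT x
    have h1 : swap c d • x = swap a b • x := by
      by_cases hx : swap a b • x ≠ x
      · have hx' := (hT x).mp hx
        have h3 : swap c d • swap c d • x ≠ swap c d • x := F1' c d x hx'
        have h4 := (hT _).mpr h3
        rcases F1 a b hab x (swap c d • x) hx h4 with h5 | h5
        · exact absurd h5 hx'
        · exact h5
      · have hx' : ¬ (swap c d • x ≠ x) := fun h' => hx ((hT x).mpr h')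
        push Not at hx hx'
        rw [hx, hx']
    rw [h1, hinv]
  -- two common points: same supports
  have S3 : ∀ a b c d : Fin k, a ≠ b → c ≠ d → ∀ x y : Ω, x ≠ y → swap a b • x ≠ x → swap a b • y ≠ y →
      swap c d • x ≠ x → swap c d • y ≠ y → ∀ z : Ω, swap a b • swap c d • z = z := by
    intro a b c d hab hcd x y hxy h1 h2 h3 h4
    apply S2 a b c d hab hcd
    intro z
    have e1 : y = swap a b • x := by
      rcases F1 a b hab x y h1 h2 with h5 | h5
      · exact absurd h5.symm hxy
      · exact h5
    have e2 : y = swap c d • x := by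
      rcases F1 c d hcd x y h3 h4 with h5 | h5
      · exact absurd h5.symm hxy
      · exact h5
    constructor
    · intro hz
      rcases F1 a b hab x z h1 hz with h5 | h5
      · rw [h5]; exact h3
      · rw [h5, ← e1]; exact h4
    · intro hz
      rcases F1 c d hcd x z h3 hz with h5 | h5
      · rw [h5]; exact h1
      · rw [h5, ← e2]; exact h2
  -- (1) disjoint transpositions have disjoint supports
  have P1 : ∀ a b c d : Fin k, a ≠ b → a ≠ c → a ≠ d → b ≠ c → b ≠ d → c ≠ d →
      ∀ x : Ω, swap a b • x ≠ x → swap c d • x ≠ x → False := by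
    intro a b c d hab hac had hbc hbd hcd x h1 h2
    have h3 : swap a b • swap c d • x ≠ swap c d • x := by
      have := hTconj (swap c d) a b x h1
      rwa [swap_apply_of_ne_of_ne hac had, swap_apply_of_ne_of_ne hbc hbd] at this
    exact K22 a b c d hab hac had hbc hbd hcd
      (S3 a b c d hab hcd x (swap c d • x) (Ne.symm h2) h1 h3 h2 (F1' c d x h2))
  -- (3) uniqueness
  have P3u : ∀ a b c : Fin k, a ≠ b → a ≠ c → b ≠ c → ∀ x y : Ω, swap a b • x ≠ x → swap a b • y ≠ y →
      swap a c • x ≠ x → swap a c • y ≠ y → x = y := by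
    intro a b c hab hac hbc x y h1 h2 h3 h4
    by_contra hxy
    exact K3' a b c hab hac hbc (S3 a b a c hab hac x y hxy h1 h2 h3 h4)
  -- (3) existence
  have P3e : ∀ a b c : Fin k, a ≠ b → a ≠ c → b ≠ c → ∃ x : Ω, swap a b • x ≠ x ∧ swap a c • x ≠ x := by
    intro a b c hab hac hbc
    by_contra hcon
    push Not at hcon
    have hcomm : ∀ x : Ω, swap a b • swap a c • x = swap a c • swap a b • x := by
      intro x
      by_cases h1 : swap a b • x = x
      · by_cases h2 : swap a c • x = x
        · rw [h2, h1, h2]
        · -- x in T a c, swap a c • x in T a c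
          have h3 := F1' a c x h2
          have h4 : swap a b • swap a c • x = swap a c • x := by
            by_contra h5
            exact h3 (hcon _ h5)
          rw [h4, h1]
      · have h2 := hcon x h1
        have h3 := hcon _ (F1' a b x h1)
        rw [h2, h3]
    have h3c := Perm.isThreeCycle_swap_mul_swap_same hab hac hbc
    refine K3 _ (h3c.isThreeCycle_sq) ?_
    intro x
    rw [mul_smul, mul_smul, mul_smul, hcomm (swap a b • swap a c • x), hinv, hinv]
  -- (4)
  have P4 : ∀ a b c d : Fin k, a ≠ b → a ≠ c → a ≠ d → b ≠ c → b ≠ d → c ≠ d →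
      ∀ x : Ω, swap a b • x ≠ x → swap a c • x ≠ x → swap a d • x ≠ x := by
    intro a b c d hab hac had hbc hbd hcd x1 h1 h2 hcon
    obtain ⟨x2, h3, h4⟩ := P3e a b d hab had hbd
    obtain ⟨x3, h5, h6⟩ := P3e a c d hac had hcd
    have h12 : x1 ≠ x2 := by
      rintro rfl
      exact h4 hcon
    have h13 : x1 ≠ x3 := by
      rintro rfl
      exact h6 hcon
    have h23 : x2 ≠ x3 := by
      rintro rfl
      exact h12 (P3u a b c hab hac hbc x1 x2 h1 h3 h2 h5)
    have e1 : swap a b • x1 = x2 := by
      rcases F1 a b hab x1 x2 h1 h3 with h7 | h7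
      · exact absurd h7.symm h12
      · exact h7.symm
    have h7 : swap b c • x2 ≠ x2 := by
      have h8 := hTconj (swap a b) a c x1 h2
      rw [swap_apply_left, swap_apply_of_ne_of_ne (Ne.symm hac) (Ne.symm hbc), e1] at h8
      exact h8
    exact P1 b c a d hbc (Ne.symm hab) hbd (Ne.symm hac) hcd had x2 h7 h4
  -- the point
  have P5 : ∀ a : Fin k, ∃ x : Ω, ∀ b : Fin k, b ≠ a → swap a b • x ≠ x := by
    intro a
    obtain ⟨b, hb⟩ := hfree {a} (by rw [Finset.card_singleton]; omega)
    obtain ⟨c, hc⟩ := hfree {a, b} (by
      have := Finset.card_le_two (a := a) (b := b)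
      omega)
    simp only [Finset.mem_insert, Finset.mem_singleton, not_or] at hb hc
    obtain ⟨hca, hcb⟩ := hc
    obtain ⟨x, hx1, hx2⟩ := P3e a b c (Ne.symm hb) (Ne.symm hca) (Ne.symm hcb)
    refine ⟨x, fun d hd => ?_⟩
    by_cases hdb : d = b
    · rw [hdb]; exact hx1
    by_cases hdc : d = c
    · rw [hdc]; exact hx2
    exact P4 a b c d (Ne.symm hb) (Ne.symm hca) (Ne.symm hd) (Ne.symm hcb) (Ne.symm hdb)
      (Ne.symm hdc) x hx1 hx2
  choose ι hι using P5
  refine ⟨ι, ?_, ?_⟩
  · intro a b hab
    by_contra hne'
    obtain ⟨c, hc⟩ := hfree {a, b} (by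
      have := Finset.card_le_two (a := a) (b := b)
      omega)
    obtain ⟨d, hd⟩ := hfree {a, b, c} (by
      have := Finset.card_le_three (a := a) (b := b) (c := c)
      omega)
    simp only [Finset.mem_insert, Finset.mem_singleton, not_or] at hc hd
    refine P1 a c b d (Ne.symm hc.1) hne' (Ne.symm hd.1) hc.2 (Ne.symm hd.2.2) (Ne.symm hd.2.1) (ι a)
      (hι a c hc.1) ?_
    rw [hab]
    exact hι b d hd.2.1
  · intro σ a
    obtain ⟨b, hb⟩ := hfree {σ a} (by rw [Finset.card_singleton]; omega)
    obtain ⟨c, hc⟩ := hfree {σ a, b} (by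
      have := Finset.card_le_two (a := σ a) (b := b)
      omega)
    simp only [Finset.mem_insert, Finset.mem_singleton, not_or] at hb hc
    have key : ∀ b : Fin k, b ≠ σ a → swap (σ a) b • σ • ι a ≠ σ • ι a := by
      intro b hb
      have h1 : σ⁻¹ b ≠ a := by
        intro h2
        apply hb
        rw [← h2]
        simp
      have h3 := hTconj σ a (σ⁻¹ b) (ι a) (hι a _ h1)
      have h4 : σ (σ⁻¹ b) = b := by simp
      rw [h4] at h3
      exact h3
    exact P3u (σ a) b c (Ne.symm hb) (Ne.symm hc.1) (Ne.symm hc.2) _ _ (key b hb) (hι _ b hb)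
      (key c hc.1) (hι _ c hc.1)

end Pool.Agent.Helper93.L3
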