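import Pool.Agent.Helper93.L3.FamCase
import Pool.Agent.Helper93.L3.ConstCase
import Pool.Agent.Helper93.L3.GrpSwap
import Pool.Agent.Helper93.L2.Main

/-!
# LN3-R8 (MP_730da0_ag): continuous roots of `f` on `Conf k` are invariant under even permutations
-/

namespace Pool.Agent.Helper93.L3

open Pool.Agent.Helper2.LN Pool.Agent.Helper93.L2

/-- Two root functions which agree at one point agree. -/
theorem root_agree {k n : ℕ} (hk : 2 ≤ k) (hn : 2 ≤ n) (f : C(G0 k, G0 n)) (w w' : (Fin k → ℂ) → ℂ)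
    (hw : ContinuousOn w (Conf k)) (hw' : ContinuousOn w' (Conf k)) (h : ∀ q ∈ Conf k, w q ∈ rootF f q)
    (h' : ∀ q ∈ Conf k, w' q ∈ rootF f q) (q₀ : Fin k → ℂ) (hq₀ : q₀ ∈ Conf k) (heq : w q₀ = w' q₀) :
    ∀ q ∈ Conf k, w q = w' q := by
  have : PreconnectedSpace (Conf k) :=
    Subtype.preconnectedSpace (Pool.Agent.Helper2.LN2.conf_connected k).isConnected.isPreconnected
  have h1 := rootF_uniq hk hn f (Conf k) ⟨Subtype.val, continuous_subtype_val⟩ (fun a => a.2)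
    ⟨fun q => w q, hw.domRestrict⟩ ⟨fun q => w' q, hw'.domRestrict⟩
    (fun q => h q q.2) (fun q => h' q q.2) ⟨⟨q₀, hq₀⟩, heq⟩
  intro q hq
  exact congrArg (fun g : C(Conf k, ℂ) => g ⟨q, hq⟩) h1

/-- The relabelling of a configuration. -/
def relab {k : ℕ} (σ : Equiv.Perm (Fin k)) : C(Conf k, Conf k) where
  toFun q := ⟨(q : Fin k → ℂ) ∘ σ, Function.Injective.comp q.2 σ.injective⟩
  continuous_toFun := by
    refine Continuous.subtype_mk ?_ _
    exact continuous_pi fun i => (continuous_apply (σ i)).comp continuous_subtype_val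

/-- The continuous roots. -/
def Pu {k n : ℕ} (f : C(G0 k, G0 n)) : Type := {w : C(Conf k, ℂ) // ∀ q : Conf k, w q ∈ rootF f q}

noncomputable instance {k n : ℕ} (f : C(G0 k, G0 n)) : MulAction (Equiv.Perm (Fin k)) (Pu f) where
  smul σ w := ⟨w.1.comp (relab σ), fun q => by
    have h1 := w.2 (relab σ q)
    have h2 : ((relab σ q : Conf k) : Fin k → ℂ) = (q : Fin k → ℂ) ∘ σ := rfl
    rw [h2, rootF_perm] at h1
    exact h1⟩
  one_smul w := Subtype.ext (ContinuousMap.ext fun q => rfl)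
  mul_smul σ τ w := Subtype.ext (ContinuousMap.ext fun q => rfl)

open Classical in
/-- the values -/
noncomputable def PuW {k n : ℕ} (f : C(G0 k, G0 n)) (w : Pu f) (q : Fin k → ℂ) : ℂ :=
  if h : q ∈ Conf k then w.1 ⟨q, h⟩ else 0

theorem PuW_of {k n : ℕ} (f : C(G0 k, G0 n)) (w : Pu f) (q : Fin k → ℂ) (h : q ∈ Conf k) :
    PuW f w q = w.1 ⟨q, h⟩ := dif_pos h

theorem PuW_cont {k n : ℕ} (f : C(G0 k, G0 n)) (w : Pu f) : ContinuousOn (PuW f w) (Conf k) := by
  rw [continuousOn_iff_continuous_domRestrict]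
  refine w.1.continuous.congr fun q => ?_
  exact (PuW_of f w q q.2).symm

theorem PuW_fam {k n : ℕ} (hk : 2 ≤ k) (hn : 2 ≤ n) (f : C(G0 k, G0 n)) (hf : Holo f) :
    Fam k (Pu f) (PuW f) where
  dif w := rootSys_hol hk hn f hf (Conf k) (isOpen_Conf k) le_rfl (PuW f w) (PuW_cont f w)
    (fun q hq => by rw [PuW_of f w q hq]; exact w.2 ⟨q, hq⟩)
  sep x y hxy q hq h := by
    apply hxy
    have h1 := root_agree hk hn f (PuW f x) (PuW f y) (PuW_cont f x) (PuW_cont f y)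
      (fun q hq => by rw [PuW_of f x q hq]; exact x.2 ⟨q, hq⟩)
      (fun q hq => by rw [PuW_of f y q hq]; exact y.2 ⟨q, hq⟩) q hq h
    refine Subtype.ext (ContinuousMap.ext fun p => ?_)
    have h2 := h1 p p.2
    rwa [PuW_of f x p p.2, PuW_of f y p p.2] at h2
  eqv σ x q hq := by
    have hq' : q ∘ σ ∈ Conf k := Function.Injective.comp hq σ.injective
    rw [PuW_of f _ q hq, PuW_of f _ _ hq']
    rfl

theorem pure_root {k n : ℕ} (hk : 5 ≤ k) (hkn : k < n) (f : C(G0 k, G0 n)) (hf : Holo f)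
    (r : (Fin k → ℂ) → ℂ) (hr : ContinuousOn r (Conf k)) (hroot : ∀ q ∈ Conf k, r q ∈ rootF f q)
    (σ : Equiv.Perm (Fin k)) (hσ : Equiv.Perm.sign σ = 1) : ∀ q ∈ Conf k, r (q ∘ σ) = r q := by
  have hk2 : 2 ≤ k := by omega
  have hn2 : 2 ≤ n := by omega
  have hfam := PuW_fam hk2 hn2 f hf
  -- 3-cycles act trivially
  have key : ∀ σ : Equiv.Perm (Fin k), σ.IsThreeCycle → ∀ x : Pu f, σ • x = x := by
    by_cases hc : ∀ x y z : Pu f, x ≠ y → x ≠ z → y ≠ z → ∃ c : ℂ, ∀ q ∈ Conf k, rat (PuW f) x y z q = c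
    · intro σ hσ x
      exact const_case (PuW f) hfam hc σ hσ x
    · push Not at hc
      obtain ⟨x₀, y₀, z₀, hxy, hxz, hyz, hn⟩ := hc
      have hn' : ¬ ∃ c : ℂ, ∀ q ∈ Conf k, rat (PuW f) x₀ y₀ z₀ q = c := by
        rintro ⟨c, hc⟩
        obtain ⟨q, hq, hne⟩ := hn c
        exact hne (hc q hq)
      have ht := all_typ (PuW f) hfam x₀ y₀ z₀ hxy hxz hyz hn'
      by_contra hcon
      push Not at hcon
      obtain ⟨i, hi1, hi2⟩ := group_swap (Ω := Pu f) hk
        (fun a b hab x y h1 h2 h3 => swap_fix (PuW f) hfam ht a b hab x y h1 h2 h3) hcon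
      have := card_le_of_labels hk hn2 f (rootSys hk2 hn2 f) rfl (rootSys_hol hk2 hn2 f hf)
        (fun a => PuW f (i a)) (fun a => PuW_cont f (i a))
        (fun a q hq => by rw [PuW_of f _ q hq]; exact (i a).2 ⟨q, hq⟩)
        (fun q hq π a => by
          show PuW f (i a) (q ∘ π) = PuW f (i (π a)) q
          rw [← hfam.eqv π (i a) q hq, hi2])
        (fun q hq a b hab => by
          by_contra hab2
          exact hfam.sep (i a) (i b) (fun h => hab2 (hi1 h)) q hq hab)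
      omega
  -- all even permutations act trivially
  have hall : ∀ x : Pu f, σ • x = x := by
    intro x
    have h1 : σ ∈ Subgroup.closure {σ : Equiv.Perm (Fin k) | σ.IsThreeCycle} := by
      rw [Equiv.Perm.closure_three_cycles_eq_alternating]
      exact Equiv.Perm.mem_alternatingGroup.2 hσ
    have h2 : Subgroup.closure {σ : Equiv.Perm (Fin k) | σ.IsThreeCycle} ≤
        MulAction.stabilizer (Equiv.Perm (Fin k)) x := by
      rw [Subgroup.closure_le]
      intro τ hτ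
      exact MulAction.mem_stabilizer_iff.2 (key τ hτ x)
    exact MulAction.mem_stabilizer_iff.1 (h2 h1)
  obtain ⟨x, hx⟩ : ∃ x : Pu f, ∀ q (hq : q ∈ Conf k), x.1 ⟨q, hq⟩ = r q :=
    ⟨⟨⟨fun q => r q, hr.domRestrict⟩, fun q => hroot q q.2⟩, fun q hq => rfl⟩
  intro q hq
  have hq' : q ∘ σ ∈ Conf k := Function.Injective.comp hq σ.injective
  have h3 := congrArg (fun y : Pu f => y.1 ⟨q, hq⟩) (hall x)
  have h4 : (σ • x).1 ⟨q, hq⟩ = x.1 ⟨q ∘ σ, hq'⟩ := rfl
  rw [← hx q hq, ← hx (q ∘ σ) hq', ← h4]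
  exact h3

end Pool.Agent.Helper93.L3
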