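import Pool.Agent.Helper93.L3.Pure
import Pool.Agent.Helper93.L2.Pt

/-!
# LN3-R9 (MP_730da0_ag): if all roots of `f` are single valued on `Conf k`, then `f` is splittable

Paper proof.  `S = rootSys f`.  `sec_s`: if `R : (Fin k → ℂ) → ℂ` is continuous on `Conf k` with `R q ∈ S.F q`, then `s_i (R (base k)) = R (base k ∘ swap i (i+1))`: `S.val φ a = T (base k) (srt a) φ = R (srt a)` for `φ = R (base k)`, `a ∈ Gen k`
(the segment from `base k` to `srt a` is in `Conf k`, uniqueness of lifts along it).  Take a crossing `a → c` at position `i` (`exists_cross`, with `a ∈ Ord k`): `T a c (S.val φ a) = T a c (R a) = R c`, and it is `S.val (s_i φ) c` (`crossProp`),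
which is the transport of `s_i φ` from `base k` to `srt c = c ∘ swap i (i+1)`; `R ∘ (· ∘ swap i (i+1))` is also a continuous section, its value at `srt c` is `R c`, so its value at `base k` is `s_i φ` (uniqueness along the segment).
Every `w ∈ S.F (base k)` is `R_j (base k)` for one of the given root functions `R_j` (`n` different values), `R_j (base k ∘ swap 0 1) = R_j (base k ∘ swap i (i+1))` by `pure_root` (`swap 0 1 * swap i (i+1)` is even).  So `s_i = s_0`.
Conclusion as in `point_class` (`exists_rootSec_of_eq`, `splittable_of_rootSec`).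
-/

namespace Pool.Agent.Helper93.L3

open Pool.Agent.Helper2.LN Pool.Agent.Helper93.L2 Pool.Agent.Helper93.LN Polynomial

private theorem T_R {k : ℕ} (S : Sys k ℂ) (R : (Fin k → ℂ) → ℂ) (hR : ContinuousOn R (Conf k))
    (hF : ∀ q ∈ Conf k, R q ∈ S.F q) (a c : Fin k → ℂ) (h : segment ℝ a c ⊆ Conf k) :
    S.T a c (R a) = R c :=
  S.T_sec (segment ℝ a c) (convex_segment a c) h R (hR.mono h) (fun x hx => hF x (h hx)) a c
    (left_mem_segment ℝ a c) (right_mem_segment ℝ a c)

private theorem seg_conf' {k : ℕ} (q : Fin k → ℂ) (hq : q ∈ Ord k) :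
    segment ℝ (base k) q ⊆ Conf k :=
  ((convex_Ord k).segment_subset (base_mem_Ord k) hq).trans
    ((Ord_subset_Gen k).trans (Gen_subset_Conf k))

private theorem pos_ord' {k : ℕ} {a : Fin k → ℂ} (ha : a ∈ Ord k) (l : Fin k) :
    pos a l = (l : ℕ) := by
  unfold pos
  have h1 : (Finset.univ.filter fun j => (a j).re < (a l).re) = Finset.Iio l := by
    ext j
    simp only [Finset.mem_filter, Finset.mem_univ, true_and, Finset.mem_Iio]
    constructor
    · intro h
      rcases lt_trichotomy j l with h1 | h1 | h1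
      · exact h1
      · rw [h1] at h
        exact absurd h (lt_irrefl _)
      · exact absurd (ha l j h1) (not_lt.2 h.le)
    · intro h
      exact ha j l h
  rw [h1, Fin.card_Iio]

private theorem srt_right {k : ℕ} {a c : Fin k → ℂ} {l m : Fin k} (h : Cross a c l m)
    (ho : a ∈ Ord k) (i : ℕ) (hi : i + 1 < k) (hl : (l : ℕ) = i) (hm : (m : ℕ) = i + 1) :
    srt c = c ∘ Equiv.swap ⟨i, by omega⟩ ⟨i + 1, hi⟩ := by
  have hπ : ∀ u : Fin k, ((Equiv.swap (⟨i, by omega⟩ : Fin k) ⟨i + 1, hi⟩ u : Fin k) : ℕ) =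
      if (u : ℕ) = i then i + 1 else if (u : ℕ) = i + 1 then i else (u : ℕ) := by
    intro u
    rw [Equiv.swap_apply_def]
    simp only [Fin.ext_iff]
    split_ifs <;> simp
  have hord : c ∘ Equiv.swap (⟨i, by omega⟩ : Fin k) ⟨i + 1, hi⟩ ∈ Ord k := by
    intro u v huv
    have hu := hπ u
    have hv := hπ v
    have huv' : (u : ℕ) < (v : ℕ) := huv
    simp only [Function.comp_apply]
    generalize Equiv.swap (⟨i, by omega⟩ : Fin k) ⟨i + 1, hi⟩ u = u' at hu ⊢
    generalize Equiv.swap (⟨i, by omega⟩ : Fin k) ⟨i + 1, hi⟩ v = v' at hv ⊢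
    by_cases h1 : u' = m ∧ v' = l
    · rw [h1.1, h1.2]
      exact h.gt
    · have h2 : ¬ (u' = l ∧ v' = m) := by
        rintro ⟨rfl, rfl⟩
        rw [hl] at hu
        rw [hm] at hv
        split_ifs at hu hv <;> omega
      refine (h.same u' v' h2 h1).1 (ho u' v' ?_)
      have h3 : ¬ ((u' : ℕ) = i + 1 ∧ (v' : ℕ) = i) := by
        rintro ⟨h4, h5⟩
        exact h1 ⟨Fin.ext (by rw [h4, hm]), Fin.ext (by rw [h5, hl])⟩
      show (u' : ℕ) < (v' : ℕ)
      split_ifs at hu hv <;> omega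
  rw [← srt_perm c h.genc (Equiv.swap (⟨i, by omega⟩ : Fin k) ⟨i + 1, hi⟩)]
  exact srt_of_Ord _ hord

/-- The permutation `s_i` and global sections. -/
theorem sec_s {k : ℕ} (S : Sys k ℂ) (R : (Fin k → ℂ) → ℂ) (hR : ContinuousOn R (Conf k))
    (hF : ∀ q ∈ Conf k, R q ∈ S.F q) (i : ℕ) (hi : i + 1 < k) (φ : S.F (base k)) (hφ : (φ : ℂ) = R (base k)) :
    ((S.s i φ : S.F (base k)) : ℂ) = R (base k ∘ Equiv.swap ⟨i, by omega⟩ ⟨i + 1, hi⟩) := by
  obtain ⟨a, c, l, m, h, hp, ho⟩ := exists_cross (k := k) i hi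
  have h1 := S.crossProp_s i hi a c l m h hp φ
  have h2 : S.val φ a = R a := by
    unfold Sys.val
    rw [srt_of_Ord a ho, hφ]
    exact T_R S R hR hF _ _ (seg_conf' a ho)
  rw [h2, T_R S R hR hF a c (segment_cross a c l m h)] at h1
  have hl : (l : ℕ) = i := by rw [← pos_ord' ho l, hp]
  have hm : (m : ℕ) = i + 1 := by rw [← pos_ord' ho m, pos_cross a c l m h, hp]
  have hsrt := srt_right h ho i hi hl hm
  have hcc : (c ∘ Equiv.swap (⟨i, by omega⟩ : Fin k) ⟨i + 1, hi⟩) ∘
      Equiv.swap (⟨i, by omega⟩ : Fin k) ⟨i + 1, hi⟩ = c := by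
    funext j
    simp
  have hR' : ContinuousOn (fun q : Fin k → ℂ => R (q ∘ Equiv.swap (⟨i, by omega⟩ : Fin k) ⟨i + 1, hi⟩))
      (Conf k) := by
    refine hR.comp (Continuous.continuousOn ?_) ?_
    · exact continuous_pi fun j => continuous_apply _
    · intro q hq
      exact Function.Injective.comp hq (Equiv.injective _)
  have hF' : ∀ q ∈ Conf k, R (q ∘ Equiv.swap (⟨i, by omega⟩ : Fin k) ⟨i + 1, hi⟩) ∈ S.F q := by
    intro q hq
    rw [← S.perm q (Equiv.swap (⟨i, by omega⟩ : Fin k) ⟨i + 1, hi⟩)]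
    exact hF _ (Function.Injective.comp hq (Equiv.injective _))
  have hseg := seg_conf' (srt c) (srt_mem c h.genc)
  have h3 := T_R S (fun q : Fin k → ℂ => R (q ∘ Equiv.swap (⟨i, by omega⟩ : Fin k) ⟨i + 1, hi⟩))
    hR' hF' (base k) (srt c) hseg
  refine S.T_inj (base k) (srt c) hseg _ _ (S.s i φ).2
    (hF' _ (Gen_subset_Conf k (Ord_subset_Gen k (base_mem_Ord k)))) ?_
  refine h1.symm.trans ?_
  refine Eq.trans ?_ h3.symm
  show R c = R (srt c ∘ Equiv.swap (⟨i, by omega⟩ : Fin k) ⟨i + 1, hi⟩)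
  rw [hsrt, hcc]

private theorem ev_swap {k : ℕ} (hk : 2 ≤ k) (i : ℕ) (hi : i + 1 < k) :
    Equiv.Perm.sign (Equiv.swap (⟨0, by omega⟩ : Fin k) ⟨1, by omega⟩ *
      Equiv.swap (⟨i, by omega⟩ : Fin k) ⟨i + 1, hi⟩) = 1 := by
  have h1 : (⟨0, by omega⟩ : Fin k) ≠ ⟨1, by omega⟩ := by
    intro h
    simpa using congrArg Fin.val h
  have h2 : (⟨i, by omega⟩ : Fin k) ≠ ⟨i + 1, hi⟩ := by
    intro h
    simpa using congrArg Fin.val h
  rw [Equiv.Perm.sign_mul, Equiv.Perm.sign_swap h1, Equiv.Perm.sign_swap h2]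
  rfl

theorem pure_splittable {k n : ℕ} (hk : 5 ≤ k) (hkn : k < n) (f : C(G0 k, G0 n)) (hf : Holo f)
    (R : Fin n → (Fin k → ℂ) → ℂ) (hR : ∀ j, ContinuousOn (R j) (Conf k))
    (hroot : ∀ j, ∀ q ∈ Conf k, R j q ∈ rootF f q) (hinj : ∀ q ∈ Conf k, Function.Injective fun j => R j q) :
    Splittable f := by
  have hn2 : 2 ≤ n := by omega
  have hk2 : 2 ≤ k := by omega
  have hbase : base k ∈ Conf k := Gen_subset_Conf k (Ord_subset_Gen k (base_mem_Ord k))
  obtain ⟨F, hF, hfF⟩ := hf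
  have hf : Holo f := ⟨F, hF, hfF⟩
  have hSF : (rootSys hk2 hn2 f).F = rootF f := rfl
  obtain ⟨hcard, hfin⟩ := rootF_card hk2 hn2 f (base k) hbase
  have hsurj : ∀ w ∈ rootF f (base k), ∃ j, R j (base k) = w := by
    have : Finite (rootF f (base k)) := hfin
    have : Fintype (rootF f (base k)) := Fintype.ofFinite _
    have hbij : Function.Bijective (fun j : Fin n =>
        (⟨R j (base k), hroot j _ hbase⟩ : rootF f (base k))) := by
      rw [Fintype.bijective_iff_injective_and_card]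
      refine ⟨?_, ?_⟩
      · intro a b hab
        exact hinj _ hbase (congrArg Subtype.val hab)
      · rw [Fintype.card_fin, ← Nat.card_eq_fintype_card, hcard]
    intro w hw
    obtain ⟨j, hj⟩ := hbij.2 ⟨w, hw⟩
    exact ⟨j, congrArg Subtype.val hj⟩
  have hs : ∀ i, i + 1 < k → (rootSys hk2 hn2 f).s i = (rootSys hk2 hn2 f).s 0 := by
    intro i hi
    refine Equiv.ext fun φ => ?_
    obtain ⟨j, hj⟩ := hsurj φ φ.2
    refine Subtype.ext ?_
    rw [sec_s (rootSys hk2 hn2 f) (R j) (hR j) (hroot j) i hi φ hj.symm,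
      sec_s (rootSys hk2 hn2 f) (R j) (hR j) (hroot j) 0 (by omega) φ hj.symm]
    have h1 := pure_root hk hkn f hf (R j) (hR j) (hroot j) _ (ev_swap hk2 i hi)
      (base k ∘ Equiv.swap (⟨0, by omega⟩ : Fin k) ⟨1, by omega⟩)
      (Function.Injective.comp hbase (Equiv.injective _))
    refine Eq.trans ?_ h1
    congr 1
    funext u
    simp
  obtain ⟨R'⟩ := exists_rootSec_of_eq (by omega) (by omega) f F hfF _ hSF hs
  have hne : (Ghat k).Nonempty :=
    ⟨_, Ghat_of_Y hk2 (base k, Complex.log (Dsc (base k)))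
      ⟨hbase, Complex.exp_log ((Dsc_ne_zero _).2 hbase)⟩⟩
  exact splittable_of_rootSec hk2 (by omega) hne (Ghat_preconnected hk2) (logProp (by omega)) f hF hfF R'

end Pool.Agent.Helper93.L3
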