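import Pool.Agent.Helper93.L2.Defs
import Pool.Agent.Helper2.LN2.ConfTop

/-!
# LN3 (MP_730da0_ag): definitions (do not change)
-/

namespace Pool.Agent.Helper93.L3

open Pool.Agent.Helper2.LN

/-- simple ratio -/
noncomputable def sr {k : ℕ} (a b c : Fin k) (q : Fin k → ℂ) : ℂ := (q a - q b) / (q a - q c)

/-- cross ratio -/
noncomputable def cr {k : ℕ} (a b c d : Fin k) (q : Fin k → ℂ) : ℂ :=
  ((q a - q b) * (q c - q d)) / ((q a - q c) * (q b - q d))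

/-- `v` is a simple ratio or a cross ratio of different points. -/
def Typ {k : ℕ} (v : (Fin k → ℂ) → ℂ) : Prop :=
  (∃ a b c : Fin k, a ≠ b ∧ a ≠ c ∧ b ≠ c ∧ ∀ q ∈ Conf k, v q = sr a b c q) ∨
  ∃ a b c d : Fin k, a ≠ b ∧ a ≠ c ∧ a ≠ d ∧ b ≠ c ∧ b ≠ d ∧ c ≠ d ∧ ∀ q ∈ Conf k, v q = cr a b c d q

/-- A family of holomorphic functions on `Conf k`, no two of which ever agree, permuted by the symmetric group. -/
structure Fam (k : ℕ) (Ω : Type) [MulAction (Equiv.Perm (Fin k)) Ω] (W : Ω → (Fin k → ℂ) → ℂ) : Prop where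
  dif : ∀ x, DifferentiableOn ℂ (W x) (Conf k)
  sep : ∀ x y, x ≠ y → ∀ q ∈ Conf k, W x q ≠ W y q
  eqv : ∀ (σ : Equiv.Perm (Fin k)) x, ∀ q ∈ Conf k, W (σ • x) q = W x (q ∘ σ)

/-- `(W x - W y) / (W x - W z)` -/
noncomputable def rat {k : ℕ} {Ω : Type} (W : Ω → (Fin k → ℂ) → ℂ) (x y z : Ω) (q : Fin k → ℂ) : ℂ :=
  (W x q - W y q) / (W x q - W z q)

end Pool.Agent.Helper93.L3
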