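import Pool.Agent.Helper93.L3.TypDef
import Pool.Agent.Helper93.L3.Forms
import Pool.Agent.Helper2.LN2.ConfLog

/-!
# LN3-R2 (MP_730da0_ag): holomorphic functions on `Conf k` omitting `0` and `1`

Paper proof.  `conf_logder` for `v` and for `1 - v`: constants `m d i`, `m' d i` with `∂_d v = v S`, `- ∂_d v = (1 - v) S'`, `S = ∑_(i ≠ d) m d i / (q d - q i)`, `S' = ∑_(i ≠ d) m' d i / (q d - q i)`.
So `v S + (1 - v) S' = 0` on `Conf k`, i.e. `v (S' - S) = S'`.
Fix `d`.  For an injective `y : Fin k → ℂ` put `q d = 0`, `q i = - 1 / (y i - y d)`: then `q ∈ Conf k` and `1 / (q d - q i) = y i - y d`.  With `L i = m d i` (`i ≠ d`), `L d = - ∑_(i ≠ d) m d i`: `S = ∑ L i y i`, and `L'` in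
the same way.  As `v ≠ 0, 1`: `L y = 0 ↔ L' y = 0 ↔ (L' - L) y = 0` for injective `y`.  Apply `forms`:
* third case for some `d`: for `q ∈ Conf k` take `y d = 0`, `y i = 1 / (q d - q i)`: `v = (y i - y j) / (y i - y l)`; if `d ∉ {i, j, l}` this is `cr i j l d`; `d = i`: `sr d l j`; `d = j`: `sr l d i`; `d = l`: `sr j i d`.
* second case: there is `y`, so `q ∈ Conf k`, with `S ≠ 0` at `q` (`form_zero`); then `S ≠ 0` for `update q d x`, `x` near `q d`, `v S + (1 - v) c S = 0` gives `v (1 - c) = - c`, so `v` is constant there (`c ≠ 1` as `c = 1` gives `0 = -1`),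
  `∂_d v = 0 = v S`, contradiction.
* first case for all `d`: all partial derivatives of `v` vanish on `Conf k`, so `fderiv ℂ v q = 0` (basis `Pi.single d 1`; `deriv (fun x => v (update q d x)) (q d) = fderiv ℂ v q (Pi.single d 1)`), `Conf k` is open
  (`isOpen_Conf`) and connected (`conf_connected`): `v` is constant (`IsOpen.is_const_of_fderiv_eq_zero` or similar).
-/

namespace Pool.Agent.Helper93.L3

open Pool.Agent.Helper2.LN Pool.Agent.Helper2.LN2

/-- a function with vanishing partial derivatives is constant -/
theorem const_of_partial {k : ℕ} (v : (Fin k → ℂ) → ℂ) (hd : DifferentiableOn ℂ v (Conf k))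
    (h : ∀ q ∈ Conf k, ∀ d, deriv (fun x => v (Function.update q d x)) (q d) = 0) :
    ∃ c, ∀ q ∈ Conf k, v q = c := by
  classical
  have hopen := Helper2.LN2.isOpen_Conf k
  have hpre : IsPreconnected (Conf k) := (conf_connected k).isConnected.isPreconnected
  refine hopen.exists_is_const_of_fderiv_eq_zero hpre hd fun q hq => ?_
  have hda : DifferentiableAt ℂ v q := (hd q hq).differentiableAt (hopen.mem_nhds hq)
  have key : ∀ d, fderiv ℂ v q (Pi.single d 1) = 0 := by
    intro d
    have h1 : HasDerivAt (fun x : ℂ => Function.update q d x) (Pi.single d 1) (q d) :=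
      hasDerivAt_update q d (q d)
    have h2 : HasDerivAt (fun x => v (Function.update q d x)) (fderiv ℂ v q (Pi.single d 1)) (q d) := by
      refine HasFDerivAt.comp_hasDerivAt (q d) ?_ h1
      rw [Function.update_eq_self]
      exact hda.hasFDerivAt
    rw [← h q hq d, h2.deriv]
  refine ContinuousLinearMap.ext fun y => ?_
  have hy : y = ∑ d, y d • (Pi.single d (1 : ℂ) : Fin k → ℂ) := by
    funext j
    simp [Finset.sum_apply, Pi.single_apply]
  rw [hy, map_sum]
  simp [key]

/-- the sum of a linear form at a vector with `y d = 0` -/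
private theorem form_sum {k : ℕ} (m : Fin k → ℂ) (d : Fin k) (y : Fin k → ℂ) :
    ∑ i, (if i = d then -∑ j ∈ Finset.univ.erase d, m j else m i) * y i =
      ∑ i ∈ Finset.univ.erase d, m i * (y i - y d) := by
  classical
  rw [← Finset.add_sum_erase Finset.univ _ (Finset.mem_univ d), if_pos rfl]
  have h1 : ∑ i ∈ Finset.univ.erase d, (if i = d then -∑ j ∈ Finset.univ.erase d, m j else m i) * y i =
      ∑ i ∈ Finset.univ.erase d, m i * y i :=
    Finset.sum_congr rfl fun i hi => by rw [if_neg (Finset.ne_of_mem_erase hi)]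
  rw [h1, neg_mul, Finset.sum_mul, ← sub_eq_neg_add, ← Finset.sum_sub_distrib]
  exact Finset.sum_congr rfl fun i _ => by ring

private theorem typ_step {k : ℕ} (v : (Fin k → ℂ) → ℂ) (hd : DifferentiableOn ℂ v (Conf k))
    (h0 : ∀ q ∈ Conf k, v q ≠ 0) (h1 : ∀ q ∈ Conf k, v q ≠ 1) (d : Fin k) (m m' : Fin k → ℂ)
    (hm : ∀ q ∈ Conf k, deriv (fun x => v (Function.update q d x)) (q d) =
      v q * ∑ i ∈ Finset.univ.erase d, m i / (q d - q i))
    (hm' : ∀ q ∈ Conf k, -deriv (fun x => v (Function.update q d x)) (q d) =
      (1 - v q) * ∑ i ∈ Finset.univ.erase d, m' i / (q d - q i)) :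
    (∀ q ∈ Conf k, deriv (fun x => v (Function.update q d x)) (q d) = 0) ∨ Typ v := by
  classical
  -- the relation
  have rel : ∀ q ∈ Conf k, v q * (∑ i ∈ Finset.univ.erase d, m i / (q d - q i)) +
      (1 - v q) * (∑ i ∈ Finset.univ.erase d, m' i / (q d - q i)) = 0 := by
    intro q hq
    rw [← hm q hq, ← hm' q hq]
    ring
  -- from injective vectors to points of `Conf k`
  have back : ∀ y : Fin k → ℂ, Function.Injective y → ∃ q ∈ Conf k,
      ∀ i, i ≠ d → (q d - q i)⁻¹ = y i - y d := by
    intro y hy
    refine ⟨fun i => if i = d then 0 else -(y i - y d)⁻¹, ?_, ?_⟩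
    · intro i j hij
      have hne : ∀ i, i ≠ d → y i - y d ≠ 0 := fun i hi => sub_ne_zero.2 fun h => hi (hy h)
      by_cases hi : i = d
      · by_cases hj : j = d
        · rw [hi, hj]
        · simp only [if_pos hi, if_neg hj] at hij
          exact absurd hij.symm (neg_ne_zero.2 (inv_ne_zero (hne j hj)))
      · by_cases hj : j = d
        · simp only [if_pos hj, if_neg hi] at hij
          exact absurd hij (neg_ne_zero.2 (inv_ne_zero (hne i hi)))
        · simp only [if_neg hi, if_neg hj] at hij
          have h2 := inv_injective (neg_injective hij)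
          exact hy (by linear_combination h2)
    · intro i hi
      simp only [if_true, if_neg hi]
      rw [zero_sub, neg_neg, inv_inv]
  -- the forms
  set L : Fin k → ℂ := fun i => if i = d then -∑ j ∈ Finset.univ.erase d, m j else m i with hL
  set L' : Fin k → ℂ := fun i => if i = d then -∑ j ∈ Finset.univ.erase d, m' j else m' i with hL'
  have hLs : ∀ y : Fin k → ℂ, ∑ i, L i * y i = ∑ i ∈ Finset.univ.erase d, m i * (y i - y d) :=
    fun y => form_sum m d y
  have hLs' : ∀ y : Fin k → ℂ, ∑ i, L' i * y i = ∑ i ∈ Finset.univ.erase d, m' i * (y i - y d) :=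
    fun y => form_sum m' d y
  have hval : ∀ (n : Fin k → ℂ) (y q : Fin k → ℂ), (∀ i, i ≠ d → (q d - q i)⁻¹ = y i - y d) →
      ∑ i ∈ Finset.univ.erase d, n i * (y i - y d) = ∑ i ∈ Finset.univ.erase d, n i / (q d - q i) := by
    intro n y q h
    refine Finset.sum_congr rfl fun i hi => ?_
    rw [div_eq_mul_inv, h i (Finset.ne_of_mem_erase hi)]
  have hsum0 : ∀ n : Fin k → ℂ, (∑ i, (if i = d then -∑ j ∈ Finset.univ.erase d, n j else n i)) = 0 := by
    intro n
    have h2 := form_sum n d (fun _ => 1)
    simpa using h2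
  have hrelY : ∀ y : Fin k → ℂ, Function.Injective y → ∃ w : ℂ, w ≠ 0 ∧ w ≠ 1 ∧
      w * (∑ i, L i * y i) + (1 - w) * (∑ i, L' i * y i) = 0 := by
    intro y hy
    obtain ⟨q, hq, hqi⟩ := back y hy
    refine ⟨v q, h0 q hq, h1 q hq, ?_⟩
    rw [hLs, hLs', hval m y q hqi, hval m' y q hqi]
    exact rel q hq
  have hsub : ∀ y : Fin k → ℂ, ∑ i, (L' i - L i) * y i = (∑ i, L' i * y i) - ∑ i, L i * y i := by
    intro y
    rw [← Finset.sum_sub_distrib]
    exact Finset.sum_congr rfl fun i _ => by ring
  have F1 : ∀ y : Fin k → ℂ, Function.Injective y → (∑ i, L i * y i = 0 ↔ ∑ i, L' i * y i = 0) := by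
    intro y hy
    obtain ⟨w, hw0, hw1, hw⟩ := hrelY y hy
    constructor
    · intro h
      rw [h, mul_zero, zero_add] at hw
      exact (mul_eq_zero.1 hw).resolve_left (sub_ne_zero.2 hw1.symm)
    · intro h
      rw [h, mul_zero, add_zero] at hw
      exact (mul_eq_zero.1 hw).resolve_left hw0
  have F2 : ∀ y : Fin k → ℂ, Function.Injective y →
      (∑ i, (L' i - L i) * y i = 0 ↔ ∑ i, L' i * y i = 0) := by
    intro y hy
    obtain ⟨w, hw0, hw1, hw⟩ := hrelY y hy
    have hw2 : w * (∑ i, (L' i - L i) * y i) = ∑ i, L' i * y i := by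
      rw [hsub]
      linear_combination -hw
    constructor
    · intro h
      rw [← hw2, h, mul_zero]
    · intro h
      rw [h] at hw2
      exact (mul_eq_zero.1 hw2).resolve_left hw0
  rcases forms L L' (hsum0 m) (hsum0 m') F1 F2 with ⟨hz, -⟩ | ⟨c, hLne, hc⟩ | ⟨i, j, l, α, hij, hil, hjl, hα, hA, hB⟩
  · -- all coefficients vanish
    left
    intro q hq
    rw [hm q hq]
    refine mul_eq_zero_of_right _ (Finset.sum_eq_zero fun i hi => ?_)
    have h2 := hz i
    simp only [hL, if_neg (Finset.ne_of_mem_erase hi)] at h2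
    rw [h2, zero_div]
  · -- proportional forms: impossible
    exfalso
    have hmc : ∀ i, i ≠ d → m' i = c * m i := by
      intro i hi
      have h2 := hc i
      simpa only [hL, hL', if_neg hi] using h2
    have hS' : ∀ q : Fin k → ℂ, ∑ i ∈ Finset.univ.erase d, m' i / (q d - q i) =
        c * ∑ i ∈ Finset.univ.erase d, m i / (q d - q i) := by
      intro q
      rw [Finset.mul_sum]
      refine Finset.sum_congr rfl fun i hi => ?_
      rw [hmc i (Finset.ne_of_mem_erase hi)]
      ring
    have hex : ∃ y : Fin k → ℂ, Function.Injective y ∧ ∑ i, L i * y i ≠ 0 := by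
      by_contra hcon
      push Not at hcon
      exact hLne (form_zero L hcon)
    obtain ⟨y, hy, hyne⟩ := hex
    obtain ⟨q, hq, hqi⟩ := back y hy
    rw [hLs, hval m y q hqi] at hyne
    have hprod : ∀ p ∈ Conf k, (∑ i ∈ Finset.univ.erase d, m i / (p d - p i)) ≠ 0 →
        v p * (1 - c) = -c := by
      intro p hp hne
      have h2 := rel p hp
      rw [hS' p] at h2
      have h3 : (v p + (1 - v p) * c) * (∑ i ∈ Finset.univ.erase d, m i / (p d - p i)) = 0 := by
        linear_combination h2
      have h4 := (mul_eq_zero.1 h3).resolve_right hne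
      linear_combination h4
    have hc1 : (1 : ℂ) - c ≠ 0 := by
      intro h
      have h2 := hprod q hq hyne
      rw [h, mul_zero] at h2
      have : c = 1 := by linear_combination -h
      rw [this] at h2
      norm_num at h2
    have hcont : ContinuousAt (fun x : ℂ => ∑ i ∈ Finset.univ.erase d, m i / (x - q i)) (q d) := by
      refine tendsto_finsetSum _ fun i hi => ?_
      refine ContinuousAt.div continuousAt_const (continuousAt_id.sub continuousAt_const) ?_
      exact sub_ne_zero.2 fun h => (Finset.ne_of_mem_erase hi) (hq h).symm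
    have hev1 := hcont.eventually_ne hyne
    have hupd : ContinuousAt (fun x : ℂ => Function.update q d x) (q d) :=
      (update_diff q d).continuous.continuousAt
    have hev2 : ∀ᶠ x in nhds (q d), Function.update q d x ∈ Conf k := by
      refine hupd.eventually ((Helper2.LN2.isOpen_Conf k).mem_nhds ?_)
      simpa only [Function.update_eq_self] using hq
    have hev3 : (fun x => v (Function.update q d x)) =ᶠ[nhds (q d)] fun _ => -c / (1 - c) := by
      filter_upwards [hev1, hev2] with x hx1 hx2
      rw [eq_div_iff hc1]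
      refine hprod _ hx2 ?_
      rw [Function.update_self]
      convert hx1 using 1
      refine Finset.sum_congr rfl fun i hi => ?_
      rw [Function.update_of_ne (Finset.ne_of_mem_erase hi)]
    have h5 := hm q hq
    rw [hev3.deriv_eq, deriv_const] at h5
    exact mul_ne_zero (h0 q hq) hyne h5.symm
  · -- three different indices
    right
    have hv : ∀ q ∈ Conf k, ∀ y : Fin k → ℂ, (∀ i, i ≠ d → (q d - q i)⁻¹ = y i - y d) →
        v q * (y i - y l) = y i - y j := by
      intro q hq y hqi
      have h2 := rel q hq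
      rw [← hval m y q hqi, ← hval m' y q hqi, ← hLs, ← hLs'] at h2
      have h3 : v q * (∑ m, (L' m - L m) * y m) = ∑ m, L' m * y m := by
        rw [hsub]
        linear_combination -h2
      rw [hA, hB] at h3
      refine mul_left_cancel₀ hα ?_
      linear_combination h3
    have hv2 : ∀ q ∈ Conf k, v q * ((if i = d then 0 else (q d - q i)⁻¹) - (if l = d then 0 else (q d - q l)⁻¹)) =
        (if i = d then 0 else (q d - q i)⁻¹) - (if j = d then 0 else (q d - q j)⁻¹) := by
      intro q hq
      refine hv q hq (fun i => if i = d then 0 else (q d - q i)⁻¹) ?_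
      intro i hi
      simp only [if_neg hi, if_true, sub_zero]
    have hne : ∀ q ∈ Conf k, ∀ a b : Fin k, a ≠ b → q a - q b ≠ 0 :=
      fun q hq a b hab => sub_ne_zero.2 fun h => hab (hq h)
    by_cases hi : i = d
    · left
      subst hi
      refine ⟨i, l, j, hil, hij, hjl.symm, fun q hq => ?_⟩
      have h2 := hv2 q hq
      rw [if_pos rfl, if_neg hil.symm, if_neg hij.symm] at h2
      have ha := hne q hq i l hil
      have hb := hne q hq i j hij
      unfold sr
      field_simp at h2 ⊢
      linear_combination (-1 : ℂ) * h2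
    · by_cases hj : j = d
      · left
        subst hj
        refine ⟨l, j, i, hjl.symm, hil.symm, hij.symm, fun q hq => ?_⟩
        have h2 := hv2 q hq
        rw [if_neg hi, if_pos rfl, if_neg hjl.symm] at h2
        have ha := hne q hq j i hij.symm
        have hb := hne q hq j l hjl
        have hc := hne q hq l i hil.symm
        unfold sr
        field_simp at h2 ⊢
        linear_combination (-1 : ℂ) * h2
      · by_cases hl : l = d
        · left
          subst hl
          refine ⟨j, i, l, hij.symm, hjl, hil, fun q hq => ?_⟩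
          have h2 := hv2 q hq
          rw [if_neg hi, if_pos rfl, if_neg hj] at h2
          have ha := hne q hq l i hil.symm
          have hb := hne q hq l j hjl.symm
          have hc := hne q hq j l hjl
          unfold sr
          field_simp at h2 ⊢
          linear_combination (-1 : ℂ) * h2
        · right
          refine ⟨i, j, l, d, hij, hil, hi, hjl, hj, hl, fun q hq => ?_⟩
          have h2 := hv2 q hq
          rw [if_neg hi, if_neg hj, if_neg hl] at h2
          have ha := hne q hq d i (Ne.symm hi)
          have hb := hne q hq d j (Ne.symm hj)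
          have hc := hne q hq d l (Ne.symm hl)
          have he := hne q hq i l hil
          have hf := hne q hq j d hj
          unfold cr
          field_simp at h2 ⊢
          linear_combination (-1 : ℂ) * h2

theorem typ_of_unit {k : ℕ} (v : (Fin k → ℂ) → ℂ) (hd : DifferentiableOn ℂ v (Conf k))
    (h0 : ∀ q ∈ Conf k, v q ≠ 0) (h1 : ∀ q ∈ Conf k, v q ≠ 1) : (∃ c, ∀ q ∈ Conf k, v q = c) ∨ Typ v := by
  classical
  have hopen := Helper2.LN2.isOpen_Conf k
  have hdu : ∀ q ∈ Conf k, ∀ d, DifferentiableOn ℂ (fun x => v (Function.update q d x))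
      {x | Function.update q d x ∈ Conf k} := by
    intro q _ d
    exact hd.comp (update_diff q d).differentiableOn fun x hx => hx
  obtain ⟨m, hm⟩ := conf_logder v hd.continuousOn h0 h1 hdu
  obtain ⟨m', hm'⟩ := conf_logder (fun q => 1 - v q) (continuousOn_const.sub hd.continuousOn)
    (fun q hq h => h1 q hq (by linear_combination -h)) (fun q hq h => h0 q hq (by linear_combination -h))
    (fun q hq d => (differentiableOn_const _).sub (hdu q hq d))
  by_cases hall : ∀ q ∈ Conf k, ∀ d, deriv (fun x => v (Function.update q d x)) (q d) = 0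
  · exact Or.inl (const_of_partial v hd hall)
  · right
    push Not at hall
    obtain ⟨q, hq, d, hne⟩ := hall
    refine (typ_step v hd h0 h1 d (m d) (m' d) (fun q hq => hm q hq d) (fun q hq => ?_)).resolve_left
      fun h => hne (h q hq)
    rw [← hm' q hq d]
    have h3 : deriv (fun x => 1 - v (Function.update q d x)) (q d) =
        -deriv (fun x => v (Function.update q d x)) (q d) := by
      rw [deriv_const_sub]
    exact h3.symm

end Pool.Agent.Helper93.L3
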