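import Pool.Agent.Helper93.L3.TypDef

/-!
# LN3-R3 (MP_730da0_ag): values of simple ratios and cross ratios

Paper proof.  `exists_conf_on`: give the indices outside `s` different values outside the finite set `g '' s`.
`typ_value`: `sr a b c`: `q a = 0`, `q b = w`, `q c = 1`.  `cr a b c d`: `q a = 0`, `q c = 1`, `q d = t`, `q b = w t / (t + w - 1)` with `t ∉ {0, 1, 1 - w}`: the value is `b (1 - t) / (b - t) = w`; `b = 0` iff `t = 0`,
`b = 1` iff `(w - 1)(t - 1) = 0`, `b = t` iff `t = 1` (for `t ≠ 0`).
-/

namespace Pool.Agent.Helper93.L3

open Pool.Agent.Helper2.LN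

theorem exists_conf_on {k : ℕ} (s : Finset (Fin k)) (g : Fin k → ℂ) (hg : Set.InjOn g (s : Set (Fin k))) :
    ∃ q ∈ Conf k, ∀ i ∈ s, q i = g i := by
  classical
  have hfin : (g '' (s : Set (Fin k))).Finite := s.finite_toSet.image g
  let e : ℕ ↪ ↥(g '' (s : Set (Fin k)))ᶜ := hfin.infinite_compl.natEmbedding
  refine ⟨fun i => if i ∈ s then g i else (e i.val : ℂ), ?_, ?_⟩
  · intro i j hij
    have hij' : (if i ∈ s then g i else (e i.val : ℂ)) = (if j ∈ s then g j else (e j.val : ℂ)) := hij
    by_cases hi : i ∈ s
    · by_cases hj : j ∈ s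
      · rw [if_pos hi, if_pos hj] at hij'
        exact hg (Finset.mem_coe.2 hi) (Finset.mem_coe.2 hj) hij'
      · rw [if_pos hi, if_neg hj] at hij'
        exact absurd ⟨i, Finset.mem_coe.2 hi, hij'⟩ (e j.val).2
    · by_cases hj : j ∈ s
      · rw [if_neg hi, if_pos hj] at hij'
        exact absurd ⟨j, Finset.mem_coe.2 hj, hij'.symm⟩ (e i.val).2
      · rw [if_neg hi, if_neg hj] at hij'
        exact Fin.ext (e.injective (Subtype.ext hij'))
  · intro i hi
    exact if_pos hi

theorem typ_value {k : ℕ} (v : (Fin k → ℂ) → ℂ) (hv : Typ v) (w : ℂ) (h0 : w ≠ 0) (h1 : w ≠ 1) :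
    ∃ q ∈ Conf k, v q = w := by
  classical
  rcases hv with ⟨a, b, c, hab, hac, hbc, hv⟩ | ⟨a, b, c, d, hab, hac, had, hbc, hbd, hcd, hv⟩
  · obtain ⟨q, hq, hqs⟩ := exists_conf_on (k := k) {a, b, c}
      (fun i => if i = a then 0 else if i = b then w else 1) (by
        intro i hi j hj hij
        simp only [Finset.coe_insert, Finset.coe_singleton, Set.mem_insert_iff, Set.mem_singleton_iff] at hi hj
        rcases hi with rfl | rfl | rfl <;> rcases hj with rfl | rfl | rfl <;>
          simp_all [eq_comm])
    have ha : q a = 0 := by
      have := hqs a (by simp); simpa using this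
    have hb : q b = w := by
      have := hqs b (by simp)
      simpa [hab.symm] using this
    have hc : q c = 1 := by
      have := hqs c (by simp)
      simpa [hac.symm, hbc.symm] using this
    refine ⟨q, hq, ?_⟩
    rw [hv q hq, sr, ha, hb, hc]
    simp
  · obtain ⟨t, ht⟩ := (Set.Finite.infinite_compl (Set.toFinite ({0, 1, 1 - w} : Set ℂ))).nonempty
    simp only [Set.mem_compl_iff, Set.mem_insert_iff, Set.mem_singleton_iff, not_or] at ht
    obtain ⟨ht0, ht1, ht2⟩ := ht
    have hden : t + w - 1 ≠ 0 := by
      intro h
      exact ht2 (by linear_combination h)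
    have hb0 : w * t / (t + w - 1) ≠ 0 := div_ne_zero (mul_ne_zero h0 ht0) hden
    have hb1 : w * t / (t + w - 1) ≠ 1 := by
      intro h
      rw [div_eq_one_iff_eq hden] at h
      have : (w - 1) * (t - 1) = 0 := by linear_combination h
      rcases mul_eq_zero.1 this with h' | h'
      · exact h1 (sub_eq_zero.1 h')
      · exact ht1 (sub_eq_zero.1 h')
    have hbt : w * t / (t + w - 1) ≠ t := by
      intro h
      rw [div_eq_iff hden] at h
      have : t * (t - 1) = 0 := by linear_combination -h
      rcases mul_eq_zero.1 this with h' | h'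
      · exact ht0 h'
      · exact ht1 (sub_eq_zero.1 h')
    obtain ⟨q, hq, hqs⟩ := exists_conf_on (k := k) {a, b, c, d}
      (fun i => if i = a then 0 else if i = b then w * t / (t + w - 1) else if i = c then 1 else t) (by
        intro i hi j hj hij
        simp only [Finset.coe_insert, Finset.coe_singleton, Set.mem_insert_iff, Set.mem_singleton_iff] at hi hj
        rcases hi with rfl | rfl | rfl | rfl <;> rcases hj with rfl | rfl | rfl | rfl <;>
          first
          | rfl
          | (exfalso
             simp only [if_true, if_false, hab, hac, had, hbc, hbd, hcd, hab.symm, hac.symm, had.symm,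
               hbc.symm, hbd.symm, hcd.symm] at hij
             first
             | exact hb0 hij
             | exact hb0 hij.symm
             | exact hb1 hij
             | exact hb1 hij.symm
             | exact hbt hij
             | exact hbt hij.symm
             | exact ht0 hij
             | exact ht0 hij.symm
             | exact ht1 hij
             | exact ht1 hij.symm
             | exact one_ne_zero hij
             | exact one_ne_zero hij.symm))
    have ha : q a = 0 := by
      have := hqs a (by simp); simpa using this
    have hb : q b = w * t / (t + w - 1) := by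
      have := hqs b (by simp)
      simpa [hab.symm] using this
    have hc : q c = 1 := by
      have := hqs c (by simp)
      simpa [hac.symm, hbc.symm] using this
    have hd : q d = t := by
      have := hqs d (by simp)
      simpa [had.symm, hbd.symm, hcd.symm] using this
    have hbd' : w * t / (t + w - 1) - t ≠ 0 := sub_ne_zero.2 hbt
    refine ⟨q, hq, ?_⟩
    rw [hv q hq, cr, ha, hb, hc, hd]
    rw [div_eq_iff (mul_ne_zero (by norm_num) hbd')]
    field_simp
    ring

end Pool.Agent.Helper93.L3
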